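import Pool.Agent.PnT.Defs
import Pool.Agent.PnLG.Root
import Pool.Agent.HLT.Mertens

/-!
# R4b: the pair sums of the second moment, for values of `Q`
-/

set_option autoImplicit false

open Finset Filter

namespace Pool.Agent.PnT

open Pool.Agent.PnLG

namespace Prs

theorem core (P : Finset ℕ) (hP : ∀ p ∈ P, p.Prime) (I : Finset ℕ) (r : ℕ) (hI : I ⊆ range r)
    (f : ℕ → ℤ) (d : ℕ)
    (h : ∀ T ⊆ P, T.Nonempty → ((((range r).filter (fun i => ∀ p ∈ T, (p:ℤ) ∣ f i)).card : ℕ) : ℝ) ≤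
      (d:ℝ) ^ T.card * ((r:ℝ) / (∏ p ∈ T, (p:ℝ)) + 1)) :
    ∑ i ∈ I, ∏ p ∈ P.filter (fun p : ℕ => (p:ℤ) ∣ f i), (1 - 1 / (p:ℝ))⁻¹ ≤
      (I.card : ℝ) + r * (∏ p ∈ P, (1 + (d:ℝ) / ((p:ℝ) * ((p:ℝ) - 1))) - 1) +
        ∏ p ∈ P, (1 + (d:ℝ) / ((p:ℝ) - 1)) := by
  have hp1 : ∀ p ∈ P, (1:ℝ) ≤ (p:ℝ) - 1 := by
    intro p hp
    have : (2:ℝ) ≤ p := by exact_mod_cast (hP p hp).two_le
    linarith
  have h1 : ∀ i ∈ I, ∏ p ∈ P.filter (fun p : ℕ => (p:ℤ) ∣ f i), (1 - 1 / (p:ℝ))⁻¹ =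
      ∑ T ∈ P.powerset, (if ∀ p ∈ T, (p:ℤ) ∣ f i then ∏ p ∈ T, 1 / ((p:ℝ) - 1) else 0) := by
    intro i _
    have e1 : ∏ p ∈ P.filter (fun p : ℕ => (p:ℤ) ∣ f i), (1 - 1 / (p:ℝ))⁻¹ =
        ∏ p ∈ P, (1 + (if (p:ℤ) ∣ f i then 1 / ((p:ℝ) - 1) else 0)) := by
      rw [Finset.prod_filter]
      refine Finset.prod_congr rfl fun p hp => ?_
      have := hp1 p hp
      split_ifs
      · have a : (p:ℝ) ≠ 0 := by linarith
        have b : (p:ℝ) - 1 ≠ 0 := by linarith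
        have c : 1 - 1 / (p:ℝ) = (p - 1) / p := by field_simp
        rw [c, inv_div]
        field_simp
        ring
      · simp
    rw [e1, Finset.prod_one_add]
    refine Finset.sum_congr rfl fun T _ => ?_
    split_ifs with hT
    · exact Finset.prod_congr rfl fun p hp => if_pos (hT p hp)
    · push Not at hT
      obtain ⟨p, hp, hpd⟩ := hT
      exact Finset.prod_eq_zero hp (if_neg hpd)
  rw [Finset.sum_congr rfl h1, Finset.sum_comm]
  have h2 : ∀ T ∈ P.powerset,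
      ∑ i ∈ I, (if ∀ p ∈ T, (p:ℤ) ∣ f i then ∏ p ∈ T, 1 / ((p:ℝ) - 1) else 0) ≤
      (if T = ∅ then (I.card : ℝ) - r else 0) + (r * ∏ p ∈ T, ((d:ℝ) / ((p:ℝ) * ((p:ℝ) - 1))) +
        ∏ p ∈ T, ((d:ℝ) / ((p:ℝ) - 1))) := by
    intro T hT
    rw [Finset.mem_powerset] at hT
    rcases T.eq_empty_or_nonempty with h0 | h0
    · subst h0
      simp only [Finset.notMem_empty, IsEmpty.forall_iff, implies_true, if_true, Finset.prod_empty,
        Finset.sum_const, nsmul_eq_mul, mul_one]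
      linarith
    rw [if_neg h0.ne_empty, zero_add, ← Finset.sum_filter, Finset.sum_const, nsmul_eq_mul]
    have hnn : (0:ℝ) ≤ ∏ p ∈ T, 1 / ((p:ℝ) - 1) := Finset.prod_nonneg fun p hp => by
      have := hp1 p (hT hp)
      positivity
    have h3 : (((I.filter (fun i => ∀ p ∈ T, (p:ℤ) ∣ f i)).card : ℕ) : ℝ) ≤
        (d:ℝ) ^ T.card * ((r:ℝ) / (∏ p ∈ T, (p:ℝ)) + 1) := by
      refine le_trans ?_ (h T hT h0)
      exact_mod_cast Finset.card_le_card (Finset.filter_subset_filter _ hI)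
    refine (mul_le_mul_of_nonneg_right h3 hnn).trans (le_of_eq ?_)
    have e1 : ∏ p ∈ T, ((d:ℝ) / ((p:ℝ) * ((p:ℝ) - 1))) =
        (d:ℝ) ^ T.card * ((∏ p ∈ T, 1 / ((p:ℝ) - 1)) / ∏ p ∈ T, (p:ℝ)) := by
      rw [← Finset.prod_const, ← Finset.prod_div_distrib, ← Finset.prod_mul_distrib]
      refine Finset.prod_congr rfl fun p hp => ?_
      have := hp1 p (hT hp)
      have a : (p:ℝ) ≠ 0 := by linarith
      have b : (p:ℝ) - 1 ≠ 0 := by linarith
      field_simp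
    have e2 : ∏ p ∈ T, ((d:ℝ) / ((p:ℝ) - 1)) = (d:ℝ) ^ T.card * (∏ p ∈ T, 1 / ((p:ℝ) - 1)) := by
      rw [← Finset.prod_const, ← Finset.prod_mul_distrib]
      refine Finset.prod_congr rfl fun p hp => ?_
      ring
    rw [e1, e2]
    ring
  refine (Finset.sum_le_sum h2).trans (le_of_eq ?_)
  rw [Finset.sum_add_distrib, Finset.sum_add_distrib, Finset.prod_one_add, Finset.prod_one_add,
    Finset.sum_ite_eq' P.powerset ∅ (fun _ => (I.card : ℝ) - r), if_pos (Finset.empty_mem_powerset P),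
    ← Finset.mul_sum]
  ring

theorem mem_diff {r z0 p : ℕ} : p ∈ Py r \ Py z0 ↔ p.Prime ∧ z0 < p ∧ p ≤ r := by
  simp only [Py, Finset.mem_sdiff, Finset.mem_filter, Finset.mem_Icc]
  constructor
  · rintro ⟨⟨⟨_, h1⟩, h2⟩, h3⟩
    refine ⟨h2, ?_, h1⟩
    by_contra h4
    exact h3 ⟨⟨h2.one_lt.le, by omega⟩, h2⟩
  · rintro ⟨h1, h2, h3⟩
    exact ⟨⟨⟨h1.one_lt.le, h3⟩, h1⟩, fun h4 => by omega⟩

theorem tw_eq_th (y z : ℕ) : tw y z = Pool.Agent.HLT.th y z := by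
  unfold tw Pool.Agent.HLT.th
  refine Finset.prod_congr ?_ fun _ _ => rfl
  ext p
  rw [mem_diff, Finset.mem_filter, Pool.Agent.HLT.B1aux.mem_PPy]
  tauto

theorem tw_pos (y z : ℕ) : 0 < tw y z := by
  rw [tw_eq_th]; exact Pool.Agent.HLT.th_pos y z

theorem sum_inv (z0 r : ℕ) (hz : 1 ≤ z0) :
    ∑ n ∈ Finset.Ioc z0 r, (1:ℝ) / (n * (n - 1)) ≤ 1 / z0 := by
  have hz' : (1:ℝ) ≤ z0 := by exact_mod_cast hz
  rcases Nat.lt_or_ge r z0 with h | h
  · rw [Finset.Ioc_eq_empty (by omega)]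
    simp
  have : ∑ n ∈ Finset.Ioc z0 r, (1:ℝ) / (n * (n - 1)) = 1 / z0 - 1 / r := by
    induction r, h using Nat.le_induction with
    | base => simp
    | succ z hzz ih =>
      rw [Finset.sum_Ioc_succ_top (by omega), ih]
      have hz' : (1:ℝ) ≤ z := by exact_mod_cast (by omega : 1 ≤ z)
      push_cast
      have : (z:ℝ) ≠ 0 := by positivity
      have : (z:ℝ) + 1 ≠ 0 := by positivity
      have : (z:ℝ) + 1 - 1 = z := by ring
      rw [this]
      field_simp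
      ring
  rw [this]
  have h2 : (0:ℝ) ≤ 1 / r := by positivity
  linarith

theorem prod_small (z0 r d : ℕ) (hd : d ≤ z0) (hz : 1 ≤ z0) :
    ∏ p ∈ Py r \ Py z0, (1 + (d:ℝ) / ((p:ℝ) * ((p:ℝ) - 1))) - 1 ≤ 2 * d / z0 := by
  have hz' : (1:ℝ) ≤ z0 := by exact_mod_cast hz
  have hd' : (d:ℝ) ≤ z0 := by exact_mod_cast hd
  have h1 : ∏ p ∈ Py r \ Py z0, (1 + (d:ℝ) / ((p:ℝ) * ((p:ℝ) - 1))) ≤
      Real.exp (∑ p ∈ Py r \ Py z0, (d:ℝ) / ((p:ℝ) * ((p:ℝ) - 1))) := by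
    rw [Real.exp_sum]
    refine Finset.prod_le_prod (fun p hp => ?_) (fun p hp => ?_)
    · have : (2:ℝ) ≤ p := by exact_mod_cast (mem_diff.mp hp).1.two_le
      have h2 : (0:ℝ) ≤ (d:ℝ) / ((p:ℝ) * ((p:ℝ) - 1)) :=
        div_nonneg (Nat.cast_nonneg _) (mul_nonneg (by linarith) (by linarith))
      linarith
    · rw [add_comm]
      exact Real.add_one_le_exp _
  have h2 : ∑ p ∈ Py r \ Py z0, (d:ℝ) / ((p:ℝ) * ((p:ℝ) - 1)) ≤ d / z0 := by
    have h3 : ∑ p ∈ Py r \ Py z0, (d:ℝ) / ((p:ℝ) * ((p:ℝ) - 1)) ≤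
        ∑ n ∈ Finset.Ioc z0 r, (d:ℝ) / ((n:ℝ) * ((n:ℝ) - 1)) := by
      refine Finset.sum_le_sum_of_subset_of_nonneg ?_ ?_
      · intro p hp
        rw [mem_diff] at hp
        rw [Finset.mem_Ioc]
        exact hp.2
      · intro n hn _
        rw [Finset.mem_Ioc] at hn
        have : (2:ℝ) ≤ n := by exact_mod_cast (by omega : 2 ≤ n)
        exact div_nonneg (Nat.cast_nonneg _) (mul_nonneg (by linarith) (by linarith))
    refine h3.trans ?_
    have h4 : ∑ n ∈ Finset.Ioc z0 r, (d:ℝ) / ((n:ℝ) * ((n:ℝ) - 1)) =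
        d * ∑ n ∈ Finset.Ioc z0 r, (1:ℝ) / (n * (n - 1)) := by
      rw [Finset.mul_sum]
      exact Finset.sum_congr rfl fun n _ => by ring
    rw [h4]
    calc (d:ℝ) * ∑ n ∈ Finset.Ioc z0 r, (1:ℝ) / (n * (n - 1)) ≤ d * (1 / z0) :=
          mul_le_mul_of_nonneg_left (sum_inv z0 r hz) (Nat.cast_nonneg _)
      _ = d / z0 := by ring
  have h5 : (0:ℝ) ≤ (d:ℝ) / z0 := by positivity
  have h6 : (d:ℝ) / z0 ≤ 1 := (div_le_one (by linarith)).mpr hd'
  have h7 := Real.abs_exp_sub_one_le (by rw [abs_of_nonneg h5]; exact h6)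
  rw [abs_of_nonneg h5] at h7
  have h8 := (le_abs_self _).trans h7
  have h9 := Real.exp_le_exp.mpr h2
  calc ∏ p ∈ Py r \ Py z0, (1 + (d:ℝ) / ((p:ℝ) * ((p:ℝ) - 1))) - 1 ≤ 2 * ((d:ℝ) / z0) := by
        linarith
    _ = 2 * d / z0 := by ring

theorem prod_big (z0 r d : ℕ) :
    ∏ p ∈ Py r \ Py z0, (1 + (d:ℝ) / ((p:ℝ) - 1)) ≤ ((tw z0 r)⁻¹) ^ d := by
  unfold tw
  rw [← Finset.prod_inv_distrib, ← Finset.prod_pow]
  refine Finset.prod_le_prod (fun p hp => ?_) (fun p hp => ?_)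
  · have : (2:ℝ) ≤ p := by exact_mod_cast (mem_diff.mp hp).1.two_le
    have h2 : (0:ℝ) ≤ (d:ℝ) / ((p:ℝ) - 1) := div_nonneg (Nat.cast_nonneg _) (by linarith)
    linarith
  · have h2 : (2:ℝ) ≤ p := by exact_mod_cast (mem_diff.mp hp).1.two_le
    have e : (1 - 1 / (p:ℝ))⁻¹ = 1 + 1 / ((p:ℝ) - 1) := by
      have a : (p:ℝ) ≠ 0 := by linarith
      have b : (p:ℝ) - 1 ≠ 0 := by linarith
      have c : 1 - 1 / (p:ℝ) = (p - 1) / p := by field_simp
      rw [c, inv_div]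
      field_simp
      ring
    rw [e]
    have h3 : (0:ℝ) ≤ 1 / ((p:ℝ) - 1) := div_nonneg (by norm_num) (by linarith)
    have h4 := one_add_mul_le_pow (by linarith : (-2:ℝ) ≤ 1 / ((p:ℝ) - 1)) d
    calc 1 + (d:ℝ) / ((p:ℝ) - 1) = 1 + (d:ℝ) * (1 / ((p:ℝ) - 1)) := by ring
      _ ≤ _ := h4

end Prs

open Prs

/-- R4b -/
theorem pairs (Q : Polynomial ℚ) (hR : RootsP Q) : PairsP Q := by
  obtain ⟨d, z1, hd, hroots⟩ := hR
  obtain ⟨C, hC, hlow⟩ := Pool.Agent.HLT.th_lower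
  have hd' : (1:ℝ) ≤ d := by exact_mod_cast hd
  have hev : ∀ᶠ z0 : ℕ in atTop, 4 * C * d * Real.log z0 ≤ z0 := by
    have h1 := (Real.isLittleO_log_id_atTop.comp_tendsto tendsto_natCast_atTop_atTop).bound
      (show (0:ℝ) < 1 / (4 * C * d) by positivity)
    filter_upwards [h1, eventually_ge_atTop 1] with z0 h2 h3
    simp only [Function.comp, id, Real.norm_eq_abs, Nat.abs_cast] at h2
    have h4 := (le_abs_self _).trans h2
    calc 4 * C * d * Real.log z0 ≤ 4 * C * d * (1 / (4 * C * d) * z0) :=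
          mul_le_mul_of_nonneg_left h4 (by positivity)
      _ = z0 := by field_simp
  obtain ⟨z2, hz2⟩ := eventually_atTop.mp hev
  refine ⟨max (max z1 2) (max d z2), fun z0 hz0 => ?_⟩
  have hz01 : z1 ≤ z0 := le_trans (le_trans (le_max_left _ _) (le_max_left _ _)) hz0
  have hz02 : 2 ≤ z0 := le_trans (le_trans (le_max_right _ _) (le_max_left _ _)) hz0
  have hz0d : d ≤ z0 := le_trans (le_trans (le_max_left _ _) (le_max_right _ _)) hz0
  have hz0z : z2 ≤ z0 := le_trans (le_trans (le_max_right _ _) (le_max_right _ _)) hz0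
  have hL := hz2 z0 hz0z
  have hz0R : (2:ℝ) ≤ z0 := by exact_mod_cast hz02
  have hlz : 0 < Real.log z0 := Real.log_pos (by linarith)
  -- eventually in `r`
  have hev2 : ∀ᶠ r : ℕ in atTop, (C * Real.log r) ^ d ≤ 1 / (2 * C * Real.log z0) * r := by
    have h1 := ((Real.isLittleO_pow_log_id_atTop (n := d)).comp_tendsto
      (tendsto_natCast_atTop_atTop (R := ℝ))).bound
      (show (0:ℝ) < 1 / (C ^ d * (2 * C * Real.log z0)) by positivity)
    filter_upwards [h1] with r h2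
    simp only [Function.comp, id, Real.norm_eq_abs, Nat.abs_cast] at h2
    have h4 := (le_abs_self _).trans h2
    rw [mul_pow]
    calc C ^ d * Real.log r ^ d ≤ C ^ d * (1 / (C ^ d * (2 * C * Real.log z0)) * r) :=
          mul_le_mul_of_nonneg_left h4 (by positivity)
      _ = 1 / (2 * C * Real.log z0) * r := by
          field_simp
  filter_upwards [hev2, eventually_ge_atTop 2] with r hr hr2 ν I hI hcard
  have htw : 1 / (C * Real.log z0) ≤ tw 0 z0 := by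
    have h1 := hlow 0 z0 hz02
    rw [← tw_eq_th] at h1
    rw [one_div]
    exact inv_le_of_inv_le₀ (tw_pos 0 z0) h1
  have hKr : 1 / (2 * C * Real.log z0) * r ≤ (I.card : ℝ) := by
    refine le_trans ?_ hcard
    have h1 := mul_le_mul_of_nonneg_left htw (by positivity : (0:ℝ) ≤ 1 / 2 * r)
    calc 1 / (2 * C * Real.log z0) * r = 1 / 2 * r * (1 / (C * Real.log z0)) := by
          field_simp
      _ ≤ 1 / 2 * r * tw 0 z0 := h1
      _ = _ := by ring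
  have hin : ∀ i ∈ I, ∑ j ∈ I, ∏ p ∈ (Py r \ Py z0).filter
      (fun p : ℕ => (p : ℤ) ∣ qi Q (ν + i) - qi Q (ν + j)), (1 - 1 / (p : ℝ))⁻¹ ≤ 3 * (I.card : ℝ) := by
    intro i _
    have e1 : ∀ j : ℕ, (Py r \ Py z0).filter (fun p : ℕ => (p : ℤ) ∣ qi Q (ν + i) - qi Q (ν + j)) =
        (Py r \ Py z0).filter (fun p : ℕ => (p : ℤ) ∣ qi Q (ν + j) - qi Q (ν + i)) := by
      intro j
      refine Finset.filter_congr fun p _ => ?_
      rw [← dvd_neg, neg_sub]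
    simp only [e1]
    have h1 := core (Py r \ Py z0) (fun p hp => (mem_diff.mp hp).1) I r hI
      (fun j : ℕ => qi Q (ν + j) - qi Q (ν + i)) d (fun T hT _ => by
        have h2 := hroots T (fun p hp => ⟨(mem_diff.mp (hT hp)).1,
          lt_of_le_of_lt hz01 (mem_diff.mp (hT hp)).2.1⟩) (qi Q (ν + i)) ν r
        push_cast at h2 ⊢
        convert h2 using 3)
    refine h1.trans ?_
    have h3 := prod_small z0 r d hz0d (by omega)
    have h4 : (r:ℝ) * (∏ p ∈ Py r \ Py z0, (1 + (d:ℝ) / ((p:ℝ) * ((p:ℝ) - 1))) - 1) ≤ I.card := by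
      refine (mul_le_mul_of_nonneg_left h3 (Nat.cast_nonneg r)).trans (le_trans ?_ hKr)
      rw [mul_comm]
      refine mul_le_mul_of_nonneg_right ?_ (Nat.cast_nonneg r)
      rw [div_le_div_iff₀ (by linarith) (by positivity)]
      calc 2 * (d:ℝ) * (2 * C * Real.log z0) = 4 * C * d * Real.log z0 := by ring
        _ ≤ z0 := hL
        _ = 1 * z0 := by ring
    have h5 : ∏ p ∈ Py r \ Py z0, (1 + (d:ℝ) / ((p:ℝ) - 1)) ≤ I.card := by
      refine (prod_big z0 r d).trans (le_trans ?_ (hr.trans hKr))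
      refine pow_le_pow_left₀ (inv_nonneg.mpr (tw_pos z0 r).le) ?_ d
      rw [tw_eq_th]
      exact hlow z0 r hr2
    linarith
  calc _ ≤ ∑ i ∈ I, 3 * (I.card : ℝ) := Finset.sum_le_sum hin
    _ = 3 * (I.card : ℝ) ^ 2 := by
      rw [Finset.sum_const, nsmul_eq_mul]; ring

end Pool.Agent.PnT
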