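import Pool.Agent.PnT.Defs

/-!
# Roots of an integer-valued polynomial modulo products of large primes in short intervals
-/

open Finset Filter

namespace Pool.Agent.PnT

open Pool.Agent.PnLG

namespace RT

open Polynomial in
/-- a polynomial of degree `≤ d` has at most `d` roots modulo a prime that does not divide its
leading coefficient -/
lemma card_roots_mod (P : ℤ[X]) (p : ℕ) (hp : p.Prime) (hl : ¬ (p : ℤ) ∣ P.leadingCoeff) :
    ((range p).filter (fun x : ℕ => (p : ℤ) ∣ P.eval (x : ℤ))).card ≤ P.natDegree := by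
  classical
  have : Fact p.Prime := ⟨hp⟩
  obtain ⟨R, hR⟩ : ∃ R : (ZMod p)[X], R = P.map (Int.castRingHom (ZMod p)) := ⟨_, rfl⟩
  have hR0 : R ≠ 0 := by
    intro h
    have h1 : R.coeff P.natDegree = 0 := by rw [h, Polynomial.coeff_zero]
    rw [hR, Polynomial.coeff_map, Polynomial.coeff_natDegree, eq_intCast,
      ZMod.intCast_zmod_eq_zero_iff_dvd] at h1
    exact hl h1
  have hinj : Set.InjOn (fun x : ℕ => (x : ZMod p))
      ((range p).filter (fun x : ℕ => (p : ℤ) ∣ P.eval (x : ℤ))) := by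
    intro x hx y hy hxy
    rw [mem_coe, mem_filter, mem_range] at hx hy
    have h1 : x ≡ y [MOD p] := (ZMod.natCast_eq_natCast_iff x y p).1 hxy
    unfold Nat.ModEq at h1
    rwa [Nat.mod_eq_of_lt hx.1, Nat.mod_eq_of_lt hy.1] at h1
  rw [← card_image_of_injOn hinj]
  have hsub : ((range p).filter (fun x : ℕ => (p : ℤ) ∣ P.eval (x : ℤ))).image
      (fun x : ℕ => (x : ZMod p)) ⊆ R.roots.toFinset := by
    intro y hy
    obtain ⟨x, hx, rfl⟩ := mem_image.1 hy
    rw [mem_filter] at hx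
    rw [Multiset.mem_toFinset, Polynomial.mem_roots hR0, Polynomial.IsRoot.def, hR]
    have h1 := Polynomial.eval_intCast_map (Int.castRingHom (ZMod p)) P (x : ℤ)
    rw [Int.cast_natCast, Int.cast_natCast] at h1
    rw [h1, eq_intCast, ZMod.intCast_zmod_eq_zero_iff_dvd]
    exact hx.2
  calc _ ≤ R.roots.toFinset.card := card_le_card hsub
    _ ≤ Multiset.card R.roots := Multiset.toFinset_card_le _
    _ ≤ R.natDegree := Polynomial.card_roots' R
    _ ≤ P.natDegree := by rw [hR]; exact Polynomial.natDegree_map_le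

/-- the integer polynomial `b Q` -/
lemma exists_int (Q : Polynomial ℚ) (hQ : IntVal Q) : ∃ (P : Polynomial ℤ) (b : ℤ), b ≠ 0 ∧
    P.natDegree = Q.natDegree ∧ ∀ m : ℤ, P.eval m = b * qi Q m := by
  obtain ⟨b, hb0, hb⟩ := IsLocalization.integerNormalization_spec (nonZeroDivisors ℤ) Q
  set P := IsLocalization.integerNormalization (nonZeroDivisors ℤ) Q with hP
  have hb1 : b ≠ 0 := nonZeroDivisors.ne_zero hb0
  have hval : ∀ m : ℤ, ((⌊Q.eval (m : ℚ)⌋ : ℤ) : ℚ) = Q.eval (m : ℚ) := by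
    intro m
    obtain ⟨k, hk⟩ := hQ m
    rw [hk, Int.floor_intCast]
  have hPv : ∀ m : ℤ, P.eval m = b * ⌊Q.eval (m : ℚ)⌋ := by
    intro m
    have h1 : (P.map (algebraMap ℤ ℚ)).eval (m : ℚ) = algebraMap ℤ ℚ (P.eval m) :=
      Polynomial.eval_intCast_map _ _ _
    rw [hb, Polynomial.eval_smul] at h1
    have h2 : ((P.eval m : ℤ) : ℚ) = ((b * ⌊Q.eval (m : ℚ)⌋ : ℤ) : ℚ) := by
      push_cast
      rw [hval m]
      simpa using h1.symm
    exact_mod_cast h2
  refine ⟨P, b, hb1, ?_, hPv⟩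
  have h1 : (P.map (algebraMap ℤ ℚ)).natDegree = P.natDegree :=
    Polynomial.natDegree_map_eq_of_injective (RingHom.injective_int _) P
  rw [← h1, hb]
  have h2 : b • Q = (b : ℚ) • Q := by
    rw [← Int.cast_smul_eq_zsmul ℚ b Q]
  rw [h2]
  exact Polynomial.natDegree_smul Q (by exact_mod_cast hb1)

/-- few elements of an interval in one residue class -/
lemma card_class (q L : ℕ) (F : Finset ℕ) (hF : F ⊆ range L)
    (h : ∀ i ∈ F, ∀ j ∈ F, i % q = j % q) : F.card ≤ L / q + 1 := by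
  have hinj : Set.InjOn (fun i : ℕ => i / q) F := by
    intro i hi j hj hij
    have h1 := h i hi j hj
    have h2 : i / q = j / q := hij
    rw [← Nat.div_add_mod i q, ← Nat.div_add_mod j q, h1, h2]
  rw [← card_image_of_injOn hinj, ← card_range (L / q + 1)]
  apply card_le_card
  intro x hx
  obtain ⟨i, hi, rfl⟩ := mem_image.1 hx
  have := mem_range.1 (hF hi)
  rw [mem_range]
  exact Nat.lt_succ_of_le (Nat.div_le_div_right this.le)

/-- congruences modulo distinct primes -/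
lemma mod_prod (T : Finset ℕ) (hT : ∀ p ∈ T, p.Prime) (i j : ℕ)
    (h : ∀ p ∈ T, i % p = j % p) : i % (∏ p ∈ T, p) = j % (∏ p ∈ T, p) := by
  have h1 : ∀ p ∈ T, (p : ℤ) ∣ (j : ℤ) - i := fun p hp => Nat.modEq_iff_dvd.1 (h p hp)
  have h2 : (∏ p ∈ T, (p : ℤ)) ∣ (j : ℤ) - i := by
    refine prod_dvd_of_coprime ?_ h1
    intro p hp q hq hpq
    exact Nat.isCoprime_iff_coprime.2 ((Nat.coprime_primes (hT p hp) (hT q hq)).2 hpq)
  have h3 : i ≡ j [MOD ∏ p ∈ T, p] := by
    rw [Nat.modEq_iff_dvd]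
    push_cast
    exact h2
  exact h3

end RT

open RT in
/-- R2: few values of `Q` in an interval lie in a residue class modulo `q` -/
theorem roots (Q : Polynomial ℚ) (hQ : IntVal Q) (hd : 1 ≤ Q.natDegree) : RootsP Q := by
  classical
  obtain ⟨P, b, hb, hPd, hPv⟩ := exists_int Q hQ
  refine ⟨Q.natDegree, P.leadingCoeff.natAbs, hd, fun T hT t a L => ?_⟩
  obtain ⟨P', hP'⟩ : ∃ P' : Polynomial ℤ, P' = P - Polynomial.C (b * t) := ⟨_, rfl⟩
  have hdP : 1 ≤ P.natDegree := by rw [hPd]; exact hd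
  have hCd : (Polynomial.C (b * t)).degree < P.degree := by
    refine lt_of_le_of_lt Polynomial.degree_C_le ?_
    exact Polynomial.natDegree_pos_iff_degree_pos.1 hdP
  have hP'd : P'.natDegree = Q.natDegree := by
    rw [hP', Polynomial.natDegree_sub_C, hPd]
  have hP'l : P'.leadingCoeff = P.leadingCoeff := by
    rw [hP', Polynomial.leadingCoeff_sub_of_degree_lt hCd]
  have hlc : P.leadingCoeff ≠ 0 := by
    intro h
    rw [Polynomial.leadingCoeff_eq_zero] at h
    rw [h, Polynomial.natDegree_zero] at hdP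
    omega
  have hP'v : ∀ m : ℤ, P'.eval m = b * (qi Q m - t) := by
    intro m
    rw [hP', Polynomial.eval_sub, Polynomial.eval_C, hPv]; ring
  obtain ⟨R, hR⟩ : ∃ R : ℕ → Finset ℕ, ∀ p, R p = (range p).filter
      (fun x : ℕ => (p : ℤ) ∣ P'.eval (x : ℤ)) := ⟨_, fun _ => rfl⟩
  have hRc : ∀ p ∈ T, (R p).card ≤ Q.natDegree := by
    intro p hp
    obtain ⟨h1, h2⟩ := hT p hp
    rw [hR, ← hP'd]
    apply card_roots_mod P' p h1
    rw [hP'l]
    intro h3
    have h4 := Int.natAbs_dvd_natAbs.2 h3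
    rw [Int.natAbs_natCast] at h4
    exact absurd (Nat.le_of_dvd (Int.natAbs_pos.2 hlc) h4) (by omega)
  have key := card_le_mul_card_image_of_maps_to
    (s := (range L).filter (fun i : ℕ => ∀ p ∈ T, (p : ℤ) ∣ qi Q (a + i) - t))
    (f := fun (i : ℕ) (p : ℕ) (_ : p ∈ T) => ((a + i) % (p : ℤ)).toNat) (t := T.pi R)
    (fun i hi => ?_) (L / (∏ p ∈ T, p) + 1) (fun g _ => ?_)
  · have h1 : (T.pi R).card ≤ Q.natDegree ^ T.card := by
      rw [card_pi]
      exact prod_le_pow_card _ _ _ hRc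
    have h2 : ((range L).filter (fun i : ℕ => ∀ p ∈ T, (p : ℤ) ∣ qi Q (a + i) - t)).card ≤
        (L / (∏ p ∈ T, p) + 1) * Q.natDegree ^ T.card := key.trans (Nat.mul_le_mul_left _ h1)
    have h3 : ((L / (∏ p ∈ T, p) : ℕ) : ℝ) ≤ (L : ℝ) / ((∏ p ∈ T, p : ℕ) : ℝ) := Nat.cast_div_le
    calc (((range L).filter (fun i : ℕ => ∀ p ∈ T, (p : ℤ) ∣ qi Q (a + i) - t)).card : ℝ)
        ≤ (((L / (∏ p ∈ T, p) + 1) * Q.natDegree ^ T.card : ℕ) : ℝ) := by exact_mod_cast h2
      _ = (Q.natDegree : ℝ) ^ T.card * (((L / (∏ p ∈ T, p) : ℕ) : ℝ) + 1) := by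
          push_cast; ring
      _ ≤ _ := by gcongr
  · rw [mem_filter] at hi
    rw [Finset.mem_pi]
    intro p hp
    have hp0 : (0 : ℤ) < p := by exact_mod_cast (hT p hp).1.pos
    have h1 : ((((a + i) % (p : ℤ)).toNat : ℕ) : ℤ) = (a + i) % (p : ℤ) :=
      Int.toNat_of_nonneg (Int.emod_nonneg _ hp0.ne')
    rw [hR, mem_filter, mem_range]
    constructor
    · have h2 := Int.emod_lt_of_pos (a + i) hp0
      rw [← h1] at h2
      exact_mod_cast h2
    · rw [h1]
      have h2 : (p : ℤ) ∣ P'.eval (a + i) := by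
        rw [hP'v]
        exact (hi.2 p hp).mul_left b
      have h3 : (p : ℤ) ∣ P'.eval (a + i) - P'.eval ((a + i) % (p : ℤ)) :=
        (Int.dvd_self_sub_emod).trans (Polynomial.sub_dvd_eval_sub _ _ P')
      have h4 := dvd_sub h2 h3
      rwa [sub_sub_cancel] at h4
  · refine card_class _ L _ ((filter_subset _ _).trans (filter_subset _ _)) ?_
    intro i hi j hj
    rw [mem_filter] at hi hj
    apply mod_prod T (fun p hp => (hT p hp).1)
    intro p hp
    have hp0 : (0 : ℤ) < p := by exact_mod_cast (hT p hp).1.pos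
    have h1 : ((a + i) % (p : ℤ)).toNat = ((a + j) % (p : ℤ)).toNat := by
      have h2 := congrFun (congrFun (hi.2.trans hj.2.symm) p) hp
      exact h2
    have h2 : (a + i) % (p : ℤ) = (a + j) % (p : ℤ) := by
      rw [← Int.toNat_of_nonneg (Int.emod_nonneg (a + i) hp0.ne'),
        ← Int.toNat_of_nonneg (Int.emod_nonneg (a + j) hp0.ne'), h1]
    have h3 : (p : ℤ) ∣ (a + j) - (a + i) := by
      have := (Int.ModEq.dvd h2)
      exact this
    have h4 : (a + j) - (a + i) = (j : ℤ) - i := by ring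
    rw [h4] at h3
    exact Nat.modEq_iff_dvd.2 h3

end Pool.Agent.PnT
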