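import Pool.Agent.PnT.Defs
import Pool.Agent.PnLG.Root
import Pool.Agent.HLT.Mertens

open Finset Filter

namespace Pool.Agent.PnT

open Pool.Agent.PnLG
open Pool.Agent.PnPoly.NC (np)

namespace SZ

lemma mem_Py {p y : ℕ} : p ∈ Py y ↔ p.Prime ∧ p ≤ y := by
  unfold Py
  rw [mem_filter, mem_Icc]
  constructor
  · rintro ⟨⟨-, h⟩, hp⟩; exact ⟨hp, h⟩
  · rintro ⟨hp, h⟩; exact ⟨⟨hp.one_lt.le, h⟩, hp⟩

lemma Py_sub {y z : ℕ} (h : y ≤ z) : Py y ⊆ Py z := by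
  intro p hp
  rw [mem_Py] at hp ⊢
  exact ⟨hp.1, hp.2.trans h⟩

lemma mem_diff {p y z : ℕ} : p ∈ Py z \ Py y ↔ p.Prime ∧ y < p ∧ p ≤ z := by
  rw [Finset.mem_sdiff, mem_Py, mem_Py]
  constructor
  · rintro ⟨⟨h1, h2⟩, h3⟩
    refine ⟨h1, ?_, h2⟩
    by_contra hc
    exact h3 ⟨h1, not_lt.mp hc⟩
  · rintro ⟨h1, h2, h3⟩
    exact ⟨⟨h1, h3⟩, fun h => by omega⟩

lemma PP_pos (y : ℕ) : 0 < PP y := prod_pos fun _ hp => (mem_Py.mp hp).1.pos

lemma PP_split {y z : ℕ} (h : y ≤ z) : PP z = PP y * ∏ p ∈ Py z \ Py y, p := by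
  unfold PP
  rw [mul_comm, prod_sdiff (Py_sub h)]

lemma dvd_PP {p y : ℕ} (h : p ∈ Py y) : p ∣ PP y := dvd_prod_of_mem (fun p => p) h

lemma PP_le (y : ℕ) : PP y ≤ 4 ^ y := by
  unfold PP
  rw [RootAux.Py_eq]
  exact primorial_le_four_pow y

lemma cop_diff {y z : ℕ} : Nat.Coprime (PP y) (∏ p ∈ Py z \ Py y, p) := by
  unfold PP
  refine Nat.Coprime.prod_left fun p hp => Nat.Coprime.prod_right fun q hq => ?_
  rw [mem_Py] at hp
  rw [mem_diff] at hq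
  exact (Nat.coprime_primes hp.1 hq.1).mpr (by omega)

lemma tw_pos (y z : ℕ) : 0 < tw y z := by
  refine prod_pos fun p hp => ?_
  have h := (mem_diff.mp hp).1
  have h1 : (1 : ℝ) < p := by exact_mod_cast h.one_lt
  have h2 : 1 / (p : ℝ) < 1 := by rw [div_lt_one (by linarith)]; exact h1
  linarith

lemma tw_mul {y z w : ℕ} (h1 : y ≤ z) (h2 : z ≤ w) : tw y z * tw z w = tw y w := by
  unfold tw
  have h3 : Py w \ Py y = (Py z \ Py y) ∪ (Py w \ Py z) := by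
    ext p
    rw [mem_union, mem_diff, mem_diff, mem_diff]
    constructor
    · rintro ⟨a, b, c⟩
      by_cases h : p ≤ z
      · exact Or.inl ⟨a, b, h⟩
      · exact Or.inr ⟨a, by omega, c⟩
    · rintro (⟨a, b, c⟩ | ⟨a, b, c⟩)
      · exact ⟨a, b, by omega⟩
      · exact ⟨a, by omega, c⟩
  rw [h3, prod_union]
  rw [Finset.disjoint_left]
  intro p hp hq
  rw [mem_diff] at hp hq
  omega

lemma tw_eq_th (y z : ℕ) : tw y z = Pool.Agent.HLT.th y z := by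
  unfold tw Pool.Agent.HLT.th
  refine prod_congr ?_ fun _ _ => rfl
  ext p
  rw [mem_diff, mem_filter, Pool.Agent.HL26.PPy, mem_filter, mem_range]
  constructor
  · rintro ⟨a, b, c⟩; exact ⟨⟨by omega, a⟩, b⟩
  · rintro ⟨⟨a, b⟩, c⟩; exact ⟨b, c, by omega⟩

lemma qv_qi (Q : Polynomial ℚ) (n : ℕ) : qv Q n = qi Q (n : ℤ) := by
  unfold qv qi
  simp

/-- the residue class for the strings -/
lemma exists_c (z0 z c0 : ℕ) (hz : z0 ≤ z) (hc0 : Nat.Coprime c0 (PP z0)) :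
    ∃ c : ℕ, Nat.Coprime c (PP z) ∧ c ≡ c0 [MOD PP z0] := by
  have hco : Nat.Coprime (PP z0) (∏ p ∈ Py z \ Py z0, p) := cop_diff
  obtain ⟨c, hc1, hc2⟩ := Nat.chineseRemainder hco c0 1
  refine ⟨c, ?_, hc1⟩
  rw [PP_split hz]
  refine Nat.Coprime.mul_right ?_ ?_
  · have h := hc1.gcd_eq
    unfold Nat.Coprime at hc0 ⊢
    rw [h, hc0]
  · have h := hc2.gcd_eq
    unfold Nat.Coprime
    rw [h, Nat.gcd_one_left]

/-- the pigeonhole principle modulo `G` -/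
lemma pigeon (S : Finset ℕ) (G : ℕ) (hG : 0 < G) :
    ∃ ν < G, (S.card : ℝ) ≤ G * ((S.filter (fun j => j % G = ν)).card : ℝ) := by
  by_contra hcon
  push Not at hcon
  have h1 : S.card = ∑ ν ∈ range G, (S.filter (fun j => j % G = ν)).card :=
    card_eq_sum_card_fiberwise (fun b _ => mem_coe.mpr (mem_range.mpr (Nat.mod_lt b hG)))
  have h2 : (G : ℝ) * (S.card : ℝ) < G * S.card := by
    have h3 : ∑ ν ∈ range G, (G : ℝ) * ((S.filter (fun j => j % G = ν)).card : ℝ) <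
        ∑ ν ∈ range G, (S.card : ℝ) :=
      sum_lt_sum_of_nonempty ⟨0, mem_range.mpr hG⟩ fun ν hν => hcon ν (mem_range.mp hν)
    rw [← mul_sum, sum_const, card_range, nsmul_eq_mul] at h3
    have h4 : ((S.card : ℕ) : ℝ) = ∑ ν ∈ range G, ((S.filter (fun j => j % G = ν)).card : ℝ) := by
      rw [← Nat.cast_sum, ← h1]
    rw [← h4] at h3
    exact h3
  exact lt_irrefl _ h2

end SZ

end Pool.Agent.PnT
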