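import Pool.Agent.PnT.Defs
import Pool.Agent.PnLG.AdmFin

/-!
# R10: the local statement for all residue classes, and the passage to primes
-/

open Finset Filter

namespace Pool.Agent.PnT

open Pool.Agent.PnLG
open Pool.Agent.PnPoly.NC (np)

open Classical in
/-- **R10a**: levels and permanence give the local statement -/
theorem allMod_of (Q : Polynomial ℚ) (hL : LevelsP Q) (hD : DenseModP Q) : AllMod Q := by
  intro ε hε
  obtain ⟨K, hK⟩ := hL (ε / 2) (by positivity)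
  have hK1 : (0 : ℝ) < 2 * ((K : ℝ) + 1) := by positivity
  obtain ⟨y0, hy0⟩ := hD (ε / (2 * ((K : ℝ) + 1))) (by positivity)
  obtain ⟨Z, hZne, hZK, hZ0, hZ⟩ := hK y0
  obtain ⟨y, hy⟩ : ∃ y, y = Z.sup id := ⟨_, rfl⟩
  have hyZ : ∀ z ∈ Z, z ≤ y := fun z hz => hy ▸ Finset.le_sup (f := id) hz
  refine ⟨y, Real.exp (-(2 * (y : ℝ))) / 2, by positivity, ?_⟩
  intro y1 hy1
  have h1 : ∀ᶠ N : ℕ in atTop, ∀ z ∈ Z, (((range (PP y1)).filter (fun b : ℕ =>
      Dense Q z N (b : ℤ) ∧ ∑ n ∈ range N, Ly y1 (sv Q n + 2 * (b : ℤ)) <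
        Real.exp (-(2 * (z : ℝ))) / 2 * N)).card : ℝ) ≤
      ε / (2 * ((K : ℝ) + 1)) * (PP y1 : ℝ) := by
    rw [Filter.eventually_all_finset]
    intro z hz
    exact hy0 z (hZ0 z hz) y1 ((hyZ z hz).trans hy1)
  filter_upwards [hZ y1 (fun z hz => (hyZ z hz).trans hy1), h1] with N hN1 hN2
  set A : Finset ℕ := (range (PP y1)).filter (fun b : ℕ => ∀ z ∈ Z, ¬ Dense Q z N (b : ℤ)) with hA
  set B : ℕ → Finset ℕ := fun z => (range (PP y1)).filter (fun b : ℕ => Dense Q z N (b : ℤ) ∧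
    ∑ n ∈ range N, Ly y1 (sv Q n + 2 * (b : ℤ)) < Real.exp (-(2 * (z : ℝ))) / 2 * N) with hB
  have hsub : ((range (PP y1)).filter (fun b : ℕ =>
      ∑ n ∈ range N, Ly y1 (sv Q n + 2 * (b : ℤ)) < Real.exp (-(2 * (y : ℝ))) / 2 * N)) ⊆
      A ∪ Z.biUnion B := by
    intro b hb
    rw [mem_filter] at hb
    rw [mem_union]
    by_cases hd : ∀ z ∈ Z, ¬ Dense Q z N (b : ℤ)
    · exact Or.inl (mem_filter.mpr ⟨hb.1, hd⟩)
    · right
      push Not at hd
      obtain ⟨z, hz, hdz⟩ := hd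
      refine mem_biUnion.mpr ⟨z, hz, mem_filter.mpr ⟨hb.1, hdz, lt_of_lt_of_le hb.2 ?_⟩⟩
      have h2 : (z : ℝ) ≤ y := by exact_mod_cast hyZ z hz
      have h3 : Real.exp (-(2 * (y : ℝ))) ≤ Real.exp (-(2 * (z : ℝ))) :=
        Real.exp_le_exp.mpr (by linarith)
      exact mul_le_mul_of_nonneg_right (by linarith) (Nat.cast_nonneg N)
  have hP0 : (0 : ℝ) ≤ (PP y1 : ℝ) := Nat.cast_nonneg _
  have h4 : ((Z.biUnion B).card : ℝ) ≤ ε / 2 * (PP y1 : ℝ) := by
    have h5 : ((Z.biUnion B).card : ℝ) ≤ ∑ z ∈ Z, ((B z).card : ℝ) := by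
      exact_mod_cast Finset.card_biUnion_le
    refine h5.trans ?_
    have h6 : ∑ z ∈ Z, ((B z).card : ℝ) ≤ ∑ _z ∈ Z, ε / (2 * ((K : ℝ) + 1)) * (PP y1 : ℝ) :=
      sum_le_sum fun z hz => hN2 z hz
    refine h6.trans ?_
    rw [sum_const, nsmul_eq_mul]
    have h7 : (Z.card : ℝ) ≤ (K : ℝ) + 1 := by
      have : (Z.card : ℝ) ≤ K := by exact_mod_cast hZK
      linarith
    calc (Z.card : ℝ) * (ε / (2 * ((K : ℝ) + 1)) * (PP y1 : ℝ)) ≤
        ((K : ℝ) + 1) * (ε / (2 * ((K : ℝ) + 1)) * (PP y1 : ℝ)) :=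
          mul_le_mul_of_nonneg_right h7 (by positivity)
      _ = ε / 2 * (PP y1 : ℝ) := by field_simp
  have h8 : (((range (PP y1)).filter (fun b : ℕ =>
      ∑ n ∈ range N, Ly y1 (sv Q n + 2 * (b : ℤ)) < Real.exp (-(2 * (y : ℝ))) / 2 * N)).card : ℝ) ≤
      (A.card : ℝ) + ((Z.biUnion B).card : ℝ) := by
    exact_mod_cast (card_le_card hsub).trans (card_union_le _ _)
  have h9 : (A.card : ℝ) ≤ ε / 2 * (PP y1 : ℝ) := hN1
  linarith

open Classical in
/-- **R10b**: almost all `b` -/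
theorem all_classes (Q : Polynomial ℚ) (hQ : IntVal Q) (hlc : 0 ≤ Q.leadingCoeff)
    (hAll : AllMod Q) (C0 : ℕ) (ε : ℝ) (hε : 0 < ε) :
    ∃ c : ℝ, 0 < c ∧ ∀ᶠ H : ℕ in atTop, ∀ N : ℕ, OK Q C0 H N →
      (((Icc 1 H).filter (fun b : ℕ =>
        (cntP Q N b : ℝ) < c * (N / Real.log H))).card : ℝ) ≤ ε * H := by
  obtain ⟨y, c, hc, hz⟩ := hAll (ε / 4) (by positivity)
  have hε' : 0 < min (ε / 4) (c / 2) := lt_min (by positivity) (by positivity)
  obtain ⟨y0, hlg⟩ := local_global Q hQ hlc C0 (min (ε / 4) (c / 2)) hε'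
  set y1 := max y y0 with hy1
  set P : ℕ := PP y1 with hPdef
  have hPpos : 0 < P := Zero_P_pos y1
  have hzN := hz y1 (le_max_left _ _)
  obtain ⟨N1, hN1⟩ := Filter.eventually_atTop.mp hzN
  refine ⟨c / 2, by positivity, ?_⟩
  filter_upwards [hlg y1 (le_max_right _ _), OK_facts Q C0 N1, Filter.eventually_ge_atTop P,
    Filter.eventually_ge_atTop 3] with H hH1 hH2 hH3 hH4 N hN
  have hA := hH1 N hN
  have hNge : N1 ≤ N := (hH2 N hN).1
  have hB := hN1 N hNge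
  have hlogpos : 0 < Real.log H := Real.log_pos (by
    have : (3 : ℝ) ≤ H := by exact_mod_cast hH4
    linarith)
  set A : Finset ℕ := (Icc 1 H).filter (fun b : ℕ => (min (ε / 4) (c / 2)) * (N / Real.log H) <
        |(cntP Q N b : ℝ) - (1 / Real.log H) * ∑ n ∈ range N, Ly y1 (sv Q n + 2 * (b : ℤ))|) with hAdef
  set B : Finset ℕ := (range P).filter (fun b : ℕ =>
        ∑ n ∈ range N, Ly y1 (sv Q n + 2 * (b : ℤ)) < c * N) with hBdef
  have hsub : ((Icc 1 H).filter (fun b : ℕ =>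
        (cntP Q N b : ℝ) < c / 2 * (N / Real.log H))) ⊆
        A ∪ (Icc 1 H).filter (fun b : ℕ => b % P ∈ B) := by
    intro b hb
    rw [Finset.mem_filter] at hb
    obtain ⟨hb1, hb3⟩ := hb
    rw [Finset.mem_union]
    by_cases hbA : (min (ε / 4) (c / 2)) * (N / Real.log H) <
        |(cntP Q N b : ℝ) - (1 / Real.log H) * ∑ n ∈ range N, Ly y1 (sv Q n + 2 * (b : ℤ))|
    · left
      rw [hAdef, Finset.mem_filter]
      exact ⟨hb1, hbA⟩
    · right
      rw [Finset.mem_filter]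
      refine ⟨hb1, ?_⟩
      rw [hBdef, Finset.mem_filter]
      have hmod : (P : ℤ) ∣ (b : ℤ) - ((b % P : ℕ) : ℤ) := by
        rw [Int.natCast_mod]
        exact Int.dvd_self_sub_emod
      refine ⟨Finset.mem_range.mpr (Nat.mod_lt _ hPpos), ?_⟩
      have hcong : ∑ n ∈ range N, Ly y1 (sv Q n + 2 * ((b % P : ℕ) : ℤ)) =
            ∑ n ∈ range N, Ly y1 (sv Q n + 2 * (b : ℤ)) := by
        apply Finset.sum_congr rfl
        intro n _
        apply Zero_Ly_congr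
        have h0 : (sv Q n + 2 * ((b % P : ℕ) : ℤ)) - (sv Q n + 2 * (b : ℤ)) =
            (-2) * ((b : ℤ) - ((b % P : ℕ) : ℤ)) := by ring
        rw [h0]
        exact Dvd.dvd.mul_left hmod _
      rw [hcong]
      have hnot := not_lt.mp hbA
      have h1 := (abs_le.mp hnot).1
      have hNlog : 0 ≤ (N : ℝ) / Real.log H := by positivity
      have h2 : (min (ε / 4) (c / 2)) * ((N : ℝ) / Real.log H) ≤ c / 2 * (N / Real.log H) :=
        mul_le_mul_of_nonneg_right (min_le_right _ _) hNlog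
      have h3 : (1 / Real.log H) * ∑ n ∈ range N, Ly y1 (sv Q n + 2 * (b : ℤ)) <
          c * (N / Real.log H) := by linarith
      have h4 : (∑ n ∈ range N, Ly y1 (sv Q n + 2 * (b : ℤ))) / Real.log H < c * N / Real.log H := by
        have e1 : (1 / Real.log H) * ∑ n ∈ range N, Ly y1 (sv Q n + 2 * (b : ℤ)) =
          (∑ n ∈ range N, Ly y1 (sv Q n + 2 * (b : ℤ))) / Real.log H := by ring
        have e2 : c * ((N : ℝ) / Real.log H) = c * N / Real.log H := by ring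
        rw [← e1, ← e2]
        exact h3
      exact (div_lt_div_iff_of_pos_right hlogpos).mp h4
  have hAc : (A.card : ℝ) ≤ ε / 4 * H := by
    refine le_trans hA ?_
    exact mul_le_mul_of_nonneg_right (min_le_left _ _) (by positivity)
  have hBc : (B.card : ℝ) ≤ ε / 4 * P := hB
  have hcard2 : ((((Icc 1 H).filter (fun b : ℕ => b % P ∈ B)).card : ℕ) : ℝ) ≤ ε / 2 * H := by
    have h1 : ((((Icc 1 H).filter (fun b : ℕ => b % P ∈ B)).card : ℕ) : ℝ) ≤
        ((H / P + 1 : ℕ) : ℝ) * B.card := by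
      exact_mod_cast Zero_card H P B
    have hPr : (0 : ℝ) < P := by exact_mod_cast hPpos
    have h2 : ((H / P + 1 : ℕ) : ℝ) ≤ (H : ℝ) / P + 1 := by
      push_cast
      have := @Nat.cast_div_le ℝ _ _ _ H P
      linarith
    have h3 : (0 : ℝ) ≤ B.card := by positivity
    have hHP : (P : ℝ) ≤ H := by exact_mod_cast hH3
    calc ((((Icc 1 H).filter (fun b : ℕ => b % P ∈ B)).card : ℕ) : ℝ)
        ≤ ((H / P + 1 : ℕ) : ℝ) * B.card := h1
      _ ≤ ((H : ℝ) / P + 1) * B.card := mul_le_mul_of_nonneg_right h2 h3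
      _ ≤ ((H : ℝ) / P + 1) * (ε / 4 * P) := mul_le_mul_of_nonneg_left hBc (by positivity)
      _ = ε / 4 * (H + P) := by field_simp
      _ ≤ ε / 4 * (H + H) := by
          apply mul_le_mul_of_nonneg_left _ (by positivity)
          linarith
      _ = ε / 2 * H := by ring
  have hfin3 : ((((Icc 1 H).filter (fun b : ℕ =>
        (cntP Q N b : ℝ) < c / 2 * (N / Real.log H))).card : ℕ) : ℝ) ≤
        (A.card : ℝ) + (((Icc 1 H).filter (fun b : ℕ => b % P ∈ B)).card : ℕ) := by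
    exact_mod_cast (Finset.card_le_card hsub).trans (Finset.card_union_le _ _)
  have hHnn : (0 : ℝ) ≤ H := by positivity
  have : ε / 4 * (H : ℝ) + ε / 2 * H ≤ ε * H := by nlinarith
  linarith

end Pool.Agent.PnT
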