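import Pool.Agent.PnT.Defs
import Pool.Agent.PosProp.Defs2

/-!
# The positive proportion theorem in the form used by the reduction
-/

open Finset Filter

namespace Pool.Agent.PnT

theorem posProp_of (h : Pool.Agent.PosProp.PosPropT) : PosProp := by
  classical
  obtain ⟨C, hC, h⟩ := h
  refine ⟨C, hC, fun m D c hm hD hc => ?_⟩
  filter_upwards [h m D c hm hD hc] with N hN
  set E : ℝ := Real.exp (C * m) * (1 + Real.log D) with hE
  have h1 : Pool.Agent.PosProp.strg D c m N =
      (range N).filter (fun j => ∀ i < m, Pool.Agent.PnPoly.NC.np (j + i) % D = c % D) := by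
    unfold Pool.Agent.PosProp.strg
    refine Finset.filter_congr fun j _ => ?_
    exact Iff.rfl
  rw [h1] at hN
  have h2 : Real.exp E * (Real.exp (-E) * N) = N := by
    rw [← mul_assoc, ← Real.exp_add, add_neg_cancel, Real.exp_zero, one_mul]
  calc (N:ℝ) = Real.exp E * (Real.exp (-E) * N) := h2.symm
    _ ≤ _ := mul_le_mul_of_nonneg_left hN (Real.exp_pos _).le

end Pool.Agent.PnT
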