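import Pool.Agent.PnT.Defs
import Pool.Agent.PnLG.CrtSum
import Pool.Agent.PnLG.Root

/-!
# R4a: the choice of the class `c`
-/

open Finset Filter

namespace Pool.Agent.PnT

open Pool.Agent.PnLG
open Pool.Agent.PnPoly.NC (np)

namespace ChooseAux

lemma Py_prime {z p : ℕ} (hp : p ∈ Py z) : p.Prime := (mem_filter.mp hp).2

lemma PP_pos (z : ℕ) : 0 < PP z := prod_pos fun _ hp => (Py_prime hp).pos

/-- `∏_{k ≤ K} (1 - 1/(4k²)) ≥ 1/2 + 1/(2(K+1))` -/
lemma wallis (K : ℕ) : 1 / 2 * (1 + 1 / ((K : ℝ) + 1)) ≤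
    ∏ k ∈ Icc 1 K, (1 - 1 / (4 * (k : ℝ) ^ 2)) := by
  induction K with
  | zero => norm_num
  | succ K ih =>
    rw [Finset.prod_Icc_succ_top (by omega : 1 ≤ K + 1)]
    have hm : (1 : ℝ) ≤ ((K + 1 : ℕ) : ℝ) := by push_cast; linarith [Nat.cast_nonneg (α := ℝ) K]
    set m : ℝ := ((K + 1 : ℕ) : ℝ) with hmdef
    have hK : (K : ℝ) + 1 = m := by rw [hmdef]; push_cast; ring
    rw [hK] at ih
    have h0 : 0 ≤ 1 - 1 / (4 * m ^ 2) := by
      rw [sub_nonneg, div_le_one (by positivity)]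
      nlinarith
    refine le_trans ?_ (mul_le_mul_of_nonneg_right ih h0)
    have hm0 : 0 < m := by linarith
    have key : (1 / 2 * (1 + 1 / m)) * (1 - 1 / (4 * m ^ 2)) - 1 / 2 * (1 + 1 / (m + 1)) =
        ((2 * m) ^ 2 - (m + 1) ^ 2) / (8 * m ^ 3 * (m + 1)) := by
      field_simp
      ring
    have h1 : 0 ≤ ((2 * m) ^ 2 - (m + 1) ^ 2) / (8 * m ^ 3 * (m + 1)) := by
      apply div_nonneg
      · nlinarith
      · positivity
    linarith

lemma odd_prod (z : ℕ) : (1 : ℝ) / 2 ≤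
    ∏ p ∈ (Py z).erase 2, (1 - 1 / ((p : ℝ) - 1) ^ 2) := by
  classical
  have hodd : ∀ p ∈ (Py z).erase 2, ∃ k, p = 2 * k + 1 ∧ 1 ≤ k ∧ k ≤ z := by
    intro p hp
    obtain ⟨h2, hp'⟩ := mem_erase.mp hp
    have hpr := Py_prime hp'
    have hle := (mem_Icc.mp (mem_filter.mp hp').1).2
    obtain ⟨k, hk⟩ := hpr.odd_of_ne_two h2
    have := hpr.two_le
    exact ⟨k, hk, by omega, by omega⟩
  have h1 : ∏ p ∈ (Py z).erase 2, (1 - 1 / ((p : ℝ) - 1) ^ 2) =
      ∏ k ∈ ((Py z).erase 2).image (fun p : ℕ => p / 2), (1 - 1 / (4 * (k : ℝ) ^ 2)) := by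
    rw [prod_image]
    · refine prod_congr rfl fun p hp => ?_
      obtain ⟨k, hk, -, -⟩ := hodd p hp
      have : p / 2 = k := by omega
      rw [this, hk]
      push_cast
      congr 2
      ring
    · intro p hp q hq hpq
      obtain ⟨k, hk, -, -⟩ := hodd p hp
      obtain ⟨l, hl, -, -⟩ := hodd q hq
      simp only at hpq
      omega
  rw [h1]
  have hsub : ((Py z).erase 2).image (fun p : ℕ => p / 2) ⊆ Icc 1 z := by
    intro k hk
    obtain ⟨p, hp, rfl⟩ := mem_image.mp hk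
    obtain ⟨k, hk, h1, h2⟩ := hodd p hp
    rw [mem_Icc]
    constructor <;> omega
  have hf : ∀ k ∈ Icc 1 z, 0 ≤ (1 - 1 / (4 * (k : ℝ) ^ 2)) ∧ (1 - 1 / (4 * (k : ℝ) ^ 2)) ≤ 1 := by
    intro k hk
    have hk1 : (1 : ℝ) ≤ k := by exact_mod_cast (mem_Icc.mp hk).1
    constructor
    · rw [sub_nonneg, div_le_one (by positivity)]
      nlinarith
    · have : 0 ≤ 1 / (4 * (k : ℝ) ^ 2) := by positivity
      linarith
  have h2 := wallis z
  rw [← prod_sdiff hsub] at h2
  have h3 : ∏ k ∈ Icc 1 z \ ((Py z).erase 2).image (fun p : ℕ => p / 2), (1 - 1 / (4 * (k : ℝ) ^ 2)) ≤ 1 :=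
    prod_le_one (fun k hk => (hf k (mem_sdiff.mp hk).1).1) (fun k hk => (hf k (mem_sdiff.mp hk).1).2)
  have h4 : 0 ≤ ∏ k ∈ ((Py z).erase 2).image (fun p : ℕ => p / 2), (1 - 1 / (4 * (k : ℝ) ^ 2)) :=
    prod_nonneg fun k hk => (hf k (hsub hk)).1
  have h5 : (0 : ℝ) ≤ 1 / ((z : ℝ) + 1) := by positivity
  nlinarith [mul_le_mul_of_nonneg_right h3 h4]

/-- number of admissible classes modulo `p` -/
def w (p : ℕ) : ℝ := if p = 2 then 1 else (p : ℝ) - 2

lemma tw_le (z : ℕ) : tw 0 z ≤ ∏ p ∈ Py z, (w p / ((p : ℝ) - 1)) := by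
  classical
  have h0 : Py z \ Py 0 = Py z := by
    have : Py 0 = ∅ := by simp [Py]
    rw [this, sdiff_empty]
  rw [tw, h0]
  by_cases h2 : 2 ∈ Py z
  · rw [← mul_prod_erase _ _ h2, ← mul_prod_erase _ _ h2]
    have hfac : ∀ p ∈ (Py z).erase 2, w p / ((p : ℝ) - 1) =
        (1 - 1 / (p : ℝ)) * (1 - 1 / ((p : ℝ) - 1) ^ 2) := by
      intro p hp
      obtain ⟨hne, hp'⟩ := mem_erase.mp hp
      have h3 : (2 : ℝ) ≤ p := by exact_mod_cast (Py_prime hp').two_le
      have h4 : (p : ℝ) ≠ 0 := by positivity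
      have h5 : (p : ℝ) - 1 ≠ 0 := by linarith
      rw [w, if_neg hne]
      field_simp
      ring
    rw [prod_congr rfl hfac, prod_mul_distrib]
    have h6 := odd_prod z
    have h7 : 0 ≤ ∏ p ∈ (Py z).erase 2, (1 - 1 / (p : ℝ)) := by
      refine prod_nonneg fun p hp => ?_
      have h3 : (2 : ℝ) ≤ p := by exact_mod_cast (Py_prime (mem_erase.mp hp).2).two_le
      rw [sub_nonneg, div_le_one (by linarith)]
      linarith
    have h8 : w 2 / (((2 : ℕ) : ℝ) - 1) = 1 := by
      rw [w, if_pos rfl]; norm_num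
    rw [h8]
    push_cast
    nlinarith [mul_le_mul_of_nonneg_left h6 h7]
  · have : Py z = ∅ := by
      rw [eq_empty_iff_forall_notMem]
      intro p hp
      apply h2
      have h3 := (mem_Icc.mp (mem_filter.mp hp).1).2
      have h4 := (Py_prime hp).two_le
      exact mem_filter.mpr ⟨mem_Icc.mpr ⟨by norm_num, by omega⟩, Nat.prime_two⟩
    rw [this]
    simp

/-- local count: classes `k` modulo `p` with `p ∤ k` and `p ∤ k + u` -/
lemma local_count {p : ℕ} (hp : p.Prime) (u : ℤ) (hu : (2 : ℤ) ∣ u) :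
    w p ≤ ∑ k ∈ range p, (if ¬ p ∣ k ∧ ¬ (p : ℤ) ∣ (k : ℤ) + u then (1 : ℝ) else 0) := by
  classical
  rw [w]
  split_ifs with h2
  · subst h2
    have h1 : ¬ (2 ∣ 1) := by norm_num
    have h3 : ¬ (((2 : ℕ) : ℤ) ∣ ((1 : ℕ) : ℤ) + u) := by
      push_cast
      omega
    have h4 := single_le_sum
      (f := fun k : ℕ => if ¬ 2 ∣ k ∧ ¬ ((2 : ℕ) : ℤ) ∣ (k : ℤ) + u then (1 : ℝ) else 0)
      (s := range 2) (fun k _ => by positivity) (mem_range.mpr (by norm_num : 1 < 2))
    refine le_trans ?_ h4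
    simp only [if_pos (And.intro h1 h3)]
    exact le_rfl
  · rw [sum_ite, sum_const_zero, add_zero, sum_const, nsmul_eq_mul, mul_one]
    have hb1 : ((range p).filter (fun k => p ∣ k)).card ≤ 1 := by
      rw [card_le_one]
      intro a ha b hb
      obtain ⟨ha1, ha2⟩ := mem_filter.mp ha
      obtain ⟨hb1, hb2⟩ := mem_filter.mp hb
      rw [Nat.eq_zero_of_dvd_of_lt ha2 (mem_range.mp ha1), Nat.eq_zero_of_dvd_of_lt hb2 (mem_range.mp hb1)]
    have hb2 : ((range p).filter (fun k : ℕ => (p : ℤ) ∣ (k : ℤ) + u)).card ≤ 1 := by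
      rw [card_le_one]
      intro a ha b hb
      obtain ⟨ha1, ha2⟩ := mem_filter.mp ha
      obtain ⟨hb1, hb2⟩ := mem_filter.mp hb
      have h3 : (p : ℤ) ∣ (a : ℤ) - b := by
        have := dvd_sub ha2 hb2
        rwa [add_sub_add_right_eq_sub] at this
      have h4 := mem_range.mp ha1
      have h5 := mem_range.mp hb1
      have h6 : (a : ℤ) - b = 0 := Int.eq_zero_of_abs_lt_dvd h3 (by rw [abs_lt]; constructor <;> omega)
      omega
    have hcover : range p ⊆ (range p).filter (fun k => ¬ p ∣ k ∧ ¬ (p : ℤ) ∣ (k : ℤ) + u) ∪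
        ((range p).filter (fun k => p ∣ k) ∪ (range p).filter (fun k : ℕ => (p : ℤ) ∣ (k : ℤ) + u)) := by
      intro k hk
      simp only [mem_union, mem_filter, hk, true_and]
      tauto
    have h7 := (card_le_card hcover).trans ((card_union_le _ _).trans
      (Nat.add_le_add_left (card_union_le _ _) _))
    rw [card_range] at h7
    have h8 : p ≤ ((range p).filter (fun k => ¬ p ∣ k ∧ ¬ (p : ℤ) ∣ (k : ℤ) + u)).card + 2 := by omega
    have h9 : (p : ℝ) ≤ (((range p).filter (fun k => ¬ p ∣ k ∧ ¬ (p : ℤ) ∣ (k : ℤ) + u)).card : ℝ) + 2 := by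
      exact_mod_cast h8
    linarith

lemma w_nonneg {p : ℕ} (hp : p.Prime) : 0 ≤ w p := by
  rw [w]
  split_ifs
  · norm_num
  · have : (2 : ℝ) ≤ p := by exact_mod_cast hp.two_le
    linarith

open Classical in
/-- number of `c` coprime to `PP z` for which `c + u` is coprime to `PP z` -/
lemma global_count (z : ℕ) (u : ℤ) (hu : (2 : ℤ) ∣ u) :
    ∏ p ∈ Py z, w p ≤ (((range (PP z)).filter
      (fun k : ℕ => (∀ p ∈ Py z, ¬ p ∣ k) ∧ ∀ p ∈ Py z, ¬ (p : ℤ) ∣ (k : ℤ) + u)).card : ℝ) := by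
  have h1 := sum_prod_crt (Py z) (fun p hp => Py_prime hp)
    (fun p k => if ¬ p ∣ k ∧ ¬ (p : ℤ) ∣ (k : ℤ) + u then (1 : ℝ) else 0) (by
      intro p hp k
      have e1 : p ∣ k + p ↔ p ∣ k := by rw [Nat.dvd_add_self_right]
      have e2 : (p : ℤ) ∣ ((k + p : ℕ) : ℤ) + u ↔ (p : ℤ) ∣ (k : ℤ) + u := by
        push_cast
        rw [show (k : ℤ) + p + u = ((k : ℤ) + u) + p by ring, dvd_add_self_right]
      simp only [e1, e2])
  have h2 : ∏ p ∈ Py z, w p ≤ ∏ p ∈ Py z, ∑ k ∈ range p,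
      (if ¬ p ∣ k ∧ ¬ (p : ℤ) ∣ (k : ℤ) + u then (1 : ℝ) else 0) :=
    prod_le_prod (fun p hp => w_nonneg (Py_prime hp)) (fun p hp => local_count (Py_prime hp) u hu)
  refine h2.trans ?_
  rw [← h1, natCast_card_filter]
  refine le_of_eq ?_
  refine sum_congr rfl fun k _ => ?_
  rw [prod_ite_zero]
  simp only [forall_and, prod_const_one]

open Classical in
/-- number of the classes coprime to `PP z` -/
lemma card_units (z : ℕ) : (((range (PP z)).filter (fun k : ℕ => ∀ p ∈ Py z, ¬ p ∣ k)).card : ℝ) =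
    ∏ p ∈ Py z, ((p : ℝ) - 1) := by
  have h1 := sum_prod_crt (Py z) (fun p hp => Py_prime hp)
    (fun p k => if ¬ p ∣ k then (1 : ℝ) else 0) (by
      intro p hp k
      have e1 : p ∣ k + p ↔ p ∣ k := by rw [Nat.dvd_add_self_right]
      simp only [e1])
  rw [natCast_card_filter]
  have h2 : ∏ p ∈ Py z, ((p : ℝ) - 1) = ∏ p ∈ Py z, ∑ k ∈ range p, (if ¬ p ∣ k then (1 : ℝ) else 0) := by
    refine prod_congr rfl fun p hp => ?_
    have hpp := Py_prime hp
    rw [← natCast_card_filter]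
    have h3 : (range p).filter (fun k => ¬ p ∣ k) = (range p).erase 0 := by
      ext k
      simp only [mem_filter, mem_range, mem_erase]
      constructor
      · rintro ⟨h, h'⟩
        exact ⟨fun h0 => h' (h0 ▸ dvd_zero p), h⟩
      · rintro ⟨h, h'⟩
        exact ⟨h', fun hd => h (Nat.eq_zero_of_dvd_of_lt hd h')⟩
    rw [h3, card_erase_of_mem (mem_range.mpr hpp.pos), card_range, Nat.cast_sub hpp.one_lt.le,
      Nat.cast_one]
  rw [h2, ← h1]
  refine sum_congr rfl fun k _ => ?_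
  rw [prod_ite_zero]
  simp only [prod_const_one]

/-- multiples of the period -/
lemma count_mul (q : ℕ → Prop) [DecidablePred q] {M : ℕ} (hq : ∀ i, q (i + M) ↔ q i) (t : ℕ) :
    Nat.count q (M * t) = t * Nat.count q M := by
  have hq' : ∀ t i, q (M * t + i) ↔ q i := by
    intro t
    induction t with
    | zero => simp
    | succ t ih =>
      intro i
      rw [show M * (t + 1) + i = (M * t + i) + M by ring, hq, ih]
  induction t with
  | zero => simp
  | succ t ih =>
    rw [Nat.mul_succ, Nat.count_add, ih]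
    have : Nat.count (fun k => q (M * t + k)) M = Nat.count q M := by
      rw [Nat.count_eq_card_filter_range, Nat.count_eq_card_filter_range]
      congr 1
      exact filter_congr fun k _ => hq' t k
    rw [this]
    ring

/-- a window of one period -/
lemma count_shift (g : ℤ → Prop) [DecidablePred g] {M : ℕ} (hM : 0 < M)
    (hg : ∀ x, g (x + M) ↔ g x) (ν : ℤ) :
    Nat.count (fun i : ℕ => g (ν + i)) M = Nat.count (fun i : ℕ => g i) M := by
  have hg' : ∀ (t : ℕ) (x : ℤ), g (x + M * t) ↔ g x := by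
    intro t
    induction t with
    | zero => intro x; simp
    | succ t ih =>
      intro x
      rw [show x + (M : ℤ) * ((t + 1 : ℕ) : ℤ) = (x + M * t) + M by push_cast; ring, hg, ih]
  have hgz : ∀ (t : ℤ) (x : ℤ), g (x + M * t) ↔ g x := by
    intro t x
    obtain ⟨n, rfl | rfl⟩ := t.eq_nat_or_neg
    · exact hg' n x
    · rw [← hg' n (x + M * (-(n : ℤ)))]
      rw [show x + (M : ℤ) * (-(n : ℤ)) + M * n = x by ring]
  -- replace `ν` by a natural number
  set n : ℕ := (ν % (M : ℤ)).toNat with hn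
  have hMz : (M : ℤ) ≠ 0 := by exact_mod_cast hM.ne'
  have hn' : (n : ℤ) = ν % (M : ℤ) := Int.toNat_of_nonneg (Int.emod_nonneg _ hMz)
  have h1 : ∀ i : ℕ, g (ν + i) ↔ g (((n + i : ℕ) : ℤ)) := by
    intro i
    have h2 : ν = (n : ℤ) + M * (ν / M) := by
      rw [hn']; exact (Int.emod_add_mul_ediv ν M).symm
    rw [h2, show (n : ℤ) + (M : ℤ) * (ν / M) + (i : ℤ) = ((n + i : ℕ) : ℤ) + M * (ν / M) by
      push_cast; ring, hgz]
  have h3 : Function.Periodic (fun i : ℕ => g (i : ℤ)) M := by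
    intro i
    simp only
    push_cast
    exact propext (hg i)
  have h4 := Nat.filter_Ico_card_eq_of_periodic n M (fun i : ℕ => g (i : ℤ)) h3
  rw [← h4, Nat.count_eq_card_filter_range]
  refine card_bij (fun i _ => n + i) ?_ ?_ ?_
  · intro i hi
    rw [mem_filter, mem_range] at hi
    rw [mem_filter, mem_Ico]
    exact ⟨⟨by omega, by omega⟩, (h1 i).mp hi.2⟩
  · intro i _ j _ hij
    omega
  · intro j hj
    rw [mem_filter, mem_Ico] at hj
    refine ⟨j - n, ?_, by omega⟩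
    rw [mem_filter, mem_range]
    refine ⟨by omega, (h1 _).mpr ?_⟩
    rw [show n + (j - n) = j by omega]
    exact hj.2

end ChooseAux

open ChooseAux

/-- R4a -/
theorem choose_c (Q : Polynomial ℚ) (hQ : IntVal Q) : ChooseP Q := by
  classical
  intro z0 β
  obtain ⟨D, hD, hper⟩ := RootAux.period Q hQ
  set P := PP z0 with hP
  set M := ∏ p ∈ Py z0, p ^ (D.factorization p + 1) with hM
  have hMpos : 0 < M := prod_pos fun p hp => pow_pos (Py_prime hp).pos _
  -- the predicate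
  let g : ℕ → ℤ → Prop := fun c x => ∀ p ∈ Py z0, ¬ (p : ℤ) ∣ c + 2 * qi Q x + 2 * β
  have hgper : ∀ c x, g c (x + M) ↔ g c x := by
    intro c x
    refine forall₂_congr fun p hp => not_congr ?_
    have h1 : (p : ℤ) ∣ qi Q (x + M) - qi Q x := by
      apply hper p (Py_prime hp)
      rw [add_sub_cancel_left, hM]
      push_cast
      exact dvd_prod_of_mem (fun p : ℕ => (p : ℤ) ^ (D.factorization p + 1)) hp
    have h2 : (c : ℤ) + 2 * qi Q (x + M) + 2 * β =
        (c + 2 * qi Q x + 2 * β) + 2 * (qi Q (x + M) - qi Q x) := by ring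
    rw [h2]
    exact (Int.dvd_add_left (h1.mul_left 2))
  set A : Finset ℕ := (range P).filter (fun k : ℕ => ∀ p ∈ Py z0, ¬ p ∣ k) with hA
  have hcardA : (A.card : ℝ) = ∏ p ∈ Py z0, ((p : ℝ) - 1) := by
    rw [hA, hP]
    convert card_units z0
  have hApos : 0 < (A.card : ℝ) := by
    rw [hcardA]
    refine prod_pos fun p hp => ?_
    have : (2 : ℝ) ≤ p := by exact_mod_cast (Py_prime hp).two_le
    linarith
  -- double counting
  have hsum : (M : ℝ) * ∏ p ∈ Py z0, w p ≤
      ∑ c ∈ A, (((range M).filter (fun x : ℕ => g c x)).card : ℝ) := by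
    have e1 : ∑ c ∈ A, (((range M).filter (fun x : ℕ => g c x)).card : ℝ) =
        ∑ x ∈ range M, ((A.filter (fun c : ℕ => g c x)).card : ℝ) := by
      simp only [natCast_card_filter]
      exact sum_comm
    rw [e1]
    have e2 : ∀ x ∈ range M, ∏ p ∈ Py z0, w p ≤ ((A.filter (fun c : ℕ => g c x)).card : ℝ) := by
      intro x _
      have h1 := global_count z0 (2 * qi Q x + 2 * β) ⟨qi Q x + β, by ring⟩
      refine h1.trans ?_
      refine Nat.cast_le.mpr (card_le_card ?_)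
      intro k hk
      rw [mem_filter] at hk
      rw [mem_filter, hA, mem_filter]
      refine ⟨⟨hk.1, hk.2.1⟩, fun p hp => ?_⟩
      rw [add_assoc]
      exact hk.2.2 p hp
    calc (M : ℝ) * ∏ p ∈ Py z0, w p = ∑ x ∈ range M, ∏ p ∈ Py z0, w p := by
          rw [sum_const, card_range, nsmul_eq_mul]
      _ ≤ _ := sum_le_sum e2
  -- a good class
  have hex : ∃ c ∈ A, (M : ℝ) * (∏ p ∈ Py z0, w p) / A.card ≤
      (((range M).filter (fun x : ℕ => g c x)).card : ℝ) := by
    by_contra hcon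
    push Not at hcon
    have hne : A.Nonempty := by
      rw [← card_pos]
      exact_mod_cast hApos
    have h1 := sum_lt_sum_of_nonempty hne hcon
    rw [sum_const, nsmul_eq_mul, mul_div_cancel₀ _ hApos.ne'] at h1
    linarith
  obtain ⟨c, hcA, hc⟩ := hex
  have hcA' : ∀ p ∈ Py z0, ¬ p ∣ c := (mem_filter.mp hcA).2
  refine ⟨c, ?_, 2 * M, fun r hr ν => ?_⟩
  · change Nat.Coprime c (∏ p ∈ Py z0, p)
    refine Nat.Coprime.prod_right fun p hp => ?_
    rw [Nat.coprime_comm]
    exact (Nat.Prime.coprime_iff_not_dvd (Py_prime hp)).mpr (hcA' p hp)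
  · have hdens : (M : ℝ) * tw 0 z0 ≤ (((range M).filter (fun x : ℕ => g c x)).card : ℝ) := by
      refine le_trans ?_ hc
      rw [mul_div_assoc]
      refine mul_le_mul_of_nonneg_left ?_ (by positivity)
      rw [hcardA, ← prod_div_distrib]
      exact tw_le z0
    have htw : 0 ≤ tw 0 z0 := by
      rw [tw]
      refine prod_nonneg fun p hp => ?_
      have : (2 : ℝ) ≤ p := by exact_mod_cast (Py_prime (mem_sdiff.mp hp).1).two_le
      rw [sub_nonneg, div_le_one (by linarith)]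
      linarith
    have hw : Nat.count (fun i : ℕ => g c (ν + i)) (M * (r / M)) =
        (r / M) * ((range M).filter (fun x : ℕ => g c x)).card := by
      rw [count_mul (fun i : ℕ => g c (ν + i)) (fun i => by
        have := hgper c (ν + i)
        push_cast
        rw [← add_assoc]
        exact this), count_shift (g c) hMpos (hgper c) ν, Nat.count_eq_card_filter_range]
    have hle : Nat.count (fun i : ℕ => g c (ν + i)) (M * (r / M)) ≤
        Nat.count (fun i : ℕ => g c (ν + i)) r :=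
      Nat.count_monotone _ (Nat.mul_div_le r M)
    rw [hw, Nat.count_eq_card_filter_range] at hle
    have hfl : (r : ℝ) / 2 ≤ ((r / M : ℕ) : ℝ) * M := by
      have h1 : r < M * (r / M) + M := Nat.lt_mul_div_succ r hMpos |>.trans_eq (by ring)
      have h2 : (r : ℝ) < M * ((r / M : ℕ) : ℝ) + M := by exact_mod_cast h1
      have h3 : (2 : ℝ) * M ≤ r := by exact_mod_cast hr
      nlinarith
    calc 1 / 2 * ((r : ℝ) * tw 0 z0) = (r : ℝ) / 2 * tw 0 z0 := by ring
      _ ≤ (((r / M : ℕ) : ℝ) * M) * tw 0 z0 := mul_le_mul_of_nonneg_right hfl htw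
      _ = ((r / M : ℕ) : ℝ) * (M * tw 0 z0) := by ring
      _ ≤ ((r / M : ℕ) : ℝ) * (((range M).filter (fun x : ℕ => g c x)).card : ℝ) :=
          mul_le_mul_of_nonneg_left hdens (by positivity)
      _ ≤ _ := by
          have := (Nat.cast_le (α := ℝ)).mpr hle
          push_cast at this
          refine this.trans (le_of_eq ?_)
          congr

end Pool.Agent.PnT
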