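import Pool.Agent.PnT.AllMod

/-!
# Constant polynomials: the local statement for all residue classes
-/

open Finset Filter

namespace Pool.Agent.PnT

open Pool.Agent.PnLG
open Pool.Agent.PnPoly.NC (np)

namespace CT

lemma adm_const (Q : Polynomial ℚ) (h0 : Q.natDegree = 0) (y : ℕ) (b : ℤ) : Adm Q y b := by
  right
  intro p hp hp2
  have hpr : p.Prime := (mem_filter.mp hp).2
  rw [Polynomial.eq_C_of_natDegree_eq_zero h0]
  simp only [Polynomial.eval_C]
  set q : ℤ := ⌊Q.coeff 0⌋ with hq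
  by_cases h1 : (p : ℤ) ∣ 1 + 2 * (q + b)
  · refine ⟨2, fun h2 => hp2 ?_, fun _ h3 => ?_⟩
    · have h4 : p ∣ 2 := by exact_mod_cast h2
      exact (Nat.prime_dvd_prime_iff_eq hpr Nat.prime_two).mp h4
    · have h4 : (p : ℤ) ∣ (2 + 2 * (q + b)) - (1 + 2 * (q + b)) := dvd_sub h3 h1
      have h5 : (2 + 2 * (q + b)) - (1 + 2 * (q + b)) = 1 := by ring
      rw [h5] at h4
      have h6 : p ∣ 1 := by exact_mod_cast h4
      exact hpr.one_lt.ne' (Nat.dvd_one.mp h6)
  · refine ⟨1, fun h2 => ?_, fun _ h3 => h1 h3⟩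
    have h6 : p ∣ 1 := by exact_mod_cast h2
    exact hpr.one_lt.ne' (Nat.dvd_one.mp h6)

end CT

open Classical in
/-- the case of constants -/
theorem allMod_const (Q : Polynomial ℚ) (hQ : IntVal Q) (h0 : Q.natDegree = 0) : AllMod Q := by
  intro ε hε
  obtain ⟨y, c, hc, h⟩ := adm_mod Q hQ ε hε
  refine ⟨y, c, hc, fun y1 hy1 => ?_⟩
  filter_upwards [h y1 hy1] with N hN
  refine le_trans (le_of_eq ?_) hN
  unfold PP
  congr 2
  refine filter_congr fun b _ => ?_
  exact ⟨fun h => ⟨CT.adm_const Q h0 y _, h⟩, fun h => h.2⟩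

end Pool.Agent.PnT
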