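import Pool.Agent.PnLG.Defs2

/-!
# All constant terms: definitions and statements of the parts

For every integer-valued `Q` almost all `b` are such that `p_n + 2(Q(n)+b)` has no small prime
factor for a positive proportion of the `n`: strings of consecutive primes in one residue class,
a second moment over `b` in a class, and an iteration over the scales.
-/

open Finset Filter

namespace Pool.Agent.PnT

open Pool.Agent.PnLG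
open Pool.Agent.PnPoly.NC (np)

/-- product of the primes `≤ y` -/
def PP (y : ℕ) : ℕ := ∏ p ∈ Py y, p

/-- `∏_{y < p ≤ z} (1 - 1/p)` -/
noncomputable def tw (y z : ℕ) : ℝ := ∏ p ∈ Py z \ Py y, (1 - 1 / (p : ℝ))

/-- `Q(m)` as an integer, `m` an integer -/
noncomputable def qi (Q : Polynomial ℚ) (m : ℤ) : ℤ := ⌊Q.eval (m : ℚ)⌋

open Classical in
/-- number of the `n < N` such that `s_n + 2 b` has no prime factor `≤ y` -/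
noncomputable def cop (Q : Polynomial ℚ) (y N : ℕ) (b : ℤ) : ℕ :=
  ((range N).filter (fun n => ∀ p ∈ Py y, ¬ (p : ℤ) ∣ sv Q n + 2 * b)).card

/-- at least `exp(-2y) N` of the `n < N` are such that `s_n + 2 b` has no prime factor `≤ y` -/
def Dense (Q : Polynomial ℚ) (y N : ℕ) (b : ℤ) : Prop :=
  (N : ℝ) ≤ Real.exp (2 * y) * (cop Q y N b : ℝ)

/-- strings of `m` consecutive primes in the class `c` modulo `D` have positive density -/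
def PosProp : Prop := ∃ C : ℝ, 0 < C ∧ ∀ m D c : ℕ, 1 ≤ m → 1 ≤ D → Nat.Coprime c D →
  ∀ᶠ N : ℕ in atTop, (N : ℝ) ≤ Real.exp (Real.exp (C * m) * (1 + Real.log D)) *
    (((range N).filter (fun j => ∀ i < m, np (j + i) % D = c % D)).card : ℝ)

open Classical in
/-- R2: few values of `Q` in an interval lie in a residue class modulo `q` -/
def RootsP (Q : Polynomial ℚ) : Prop := ∃ d z1 : ℕ, 1 ≤ d ∧ ∀ T : Finset ℕ,
  (∀ p ∈ T, p.Prime ∧ z1 < p) → ∀ (t a : ℤ) (L : ℕ),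
  (((range L).filter (fun i : ℕ => ∀ p ∈ T, (p : ℤ) ∣ qi Q (a + i) - t)).card : ℝ) ≤
    (d : ℝ) ^ T.card * ((L : ℝ) / (∏ p ∈ T, p : ℕ) + 1)

open Classical in
/-- R3: second moment over `b` in a class, for the numbers `v i + 2 b`, `i ∈ I` -/
def WindowP : Prop := ∀ (d z0 r z : ℕ) (I : Finset ℕ) (v : ℕ → ℤ) (β : ℤ), 2 ≤ z0 → z0 ≤ r → r ≤ z →
  I.Nonempty →
  (∀ p ∈ Py z \ Py r, ∀ j ∈ I, (I.filter (fun i => (p : ℤ) ∣ v i - v j)).card ≤ d) →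
  (∑ i ∈ I, ∑ j ∈ I, ∏ p ∈ (Py r \ Py z0).filter (fun p : ℕ => (p : ℤ) ∣ v i - v j),
    (1 - 1 / (p : ℝ))⁻¹ ≤ 3 * (I.card : ℝ) ^ 2) →
  (I.card * tw z0 z) / (3 * (I.card * tw z0 z) + d) * ((∏ p ∈ Py z \ Py z0, p : ℕ) : ℝ) ≤
    (((range (∏ p ∈ Py z \ Py z0, p)).filter (fun k : ℕ => ∃ i ∈ I, ∀ p ∈ Py z \ Py z0,
      ¬ (p : ℤ) ∣ v i + 2 * (β + (PP z0 : ℤ) * (k : ℤ)))).card : ℝ)

open Classical in
/-- R4a: a residue class `c` modulo the primes `≤ z0` such that many `x` in every long interval make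
`c + 2 Q(x) + 2 β` coprime to all primes `≤ z0` -/
def ChooseP (Q : Polynomial ℚ) : Prop := ∀ (z0 : ℕ) (β : ℤ), ∃ c : ℕ, Nat.Coprime c (PP z0) ∧
  ∃ G0 : ℕ, ∀ r : ℕ, G0 ≤ r → ∀ ν : ℤ,
  1 / 2 * (r * tw 0 z0) ≤
    (((range r).filter (fun i : ℕ => ∀ p ∈ Py z0, ¬ (p : ℤ) ∣ c + 2 * qi Q (ν + i) + 2 * β)).card : ℝ)

open Classical in
/-- R4b: the hypothesis of the second moment for values of `Q` (from `RootsP`) -/
def PairsP (Q : Polynomial ℚ) : Prop := ∃ z2 : ℕ, ∀ z0 : ℕ, z2 ≤ z0 → ∀ᶠ r : ℕ in atTop, ∀ (ν : ℤ)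
  (I : Finset ℕ), I ⊆ range r → 1 / 2 * (r * tw 0 z0) ≤ (I.card : ℝ) →
  ∑ i ∈ I, ∑ j ∈ I, ∏ p ∈ (Py r \ Py z0).filter (fun p : ℕ => (p : ℤ) ∣ qi Q (ν + i) - qi Q (ν + j)),
    (1 - 1 / (p : ℝ))⁻¹ ≤ 3 * (I.card : ℝ) ^ 2

open Classical in
/-- R5: in every class modulo the primes `≤ z0`, for a positive proportion of the `b` the numbers
`s_n + 2b` avoid the primes `≤ z` with density at least `exp(-z^C)` -/
def StageZ (Q : Polynomial ℚ) : Prop := ∃ κ C : ℝ, 0 < κ ∧ 1 ≤ C ∧ ∃ z3 : ℕ, ∀ z0 : ℕ, z3 ≤ z0 →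
  ∀ᶠ z : ℕ in atTop, ∀ᶠ N : ℕ in atTop, ∀ β < PP z0,
  κ * ((PP z : ℝ) / PP z0) ≤ (((range (PP z)).filter (fun b : ℕ => b % PP z0 = β ∧
    (N : ℝ) ≤ Real.exp ((z : ℝ) ^ C) * (cop Q z N (b : ℤ) : ℝ))).card : ℝ)

open Classical in
/-- R6: from the scale `z` to the scale `y` -/
def LiftP (Q : Polynomial ℚ) : Prop := ∀ z y N b : ℕ, 2 ≤ z → z ≤ y → b < PP z →
  1 / 2 * tw z y * ((PP y : ℝ) / PP z) ≤ (((range (PP y)).filter (fun b' : ℕ => b' % PP z = b ∧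
    1 / 2 * tw z y * (cop Q z N (b : ℤ) : ℝ) ≤ (cop Q y N (b' : ℤ) : ℝ))).card : ℝ)

open Classical in
/-- R7: one stage -/
def StageP (Q : Polynomial ℚ) : Prop := ∃ κ : ℝ, 0 < κ ∧ κ ≤ 1 ∧ ∃ z3 : ℕ, ∀ z0 : ℕ, z3 ≤ z0 →
  ∃ y : ℕ, z0 ≤ y ∧ ∀ᶠ N : ℕ in atTop, ∀ β < PP z0,
  κ * ((PP y : ℝ) / PP z0) ≤ (((range (PP y)).filter (fun b : ℕ => b % PP z0 = β ∧
    Dense Q y N (b : ℤ))).card : ℝ)

open Classical in
/-- R8: after finitely many stages almost all `b` are dense at one of the scales -/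
def LevelsP (Q : Polynomial ℚ) : Prop := ∀ ε : ℝ, 0 < ε → ∃ K : ℕ, ∀ y0 : ℕ, ∃ Z : Finset ℕ,
  Z.Nonempty ∧ Z.card ≤ K ∧ (∀ y ∈ Z, y0 ≤ y) ∧ ∀ y1 : ℕ, (∀ y ∈ Z, y ≤ y1) → ∀ᶠ N : ℕ in atTop,
  (((range (PP y1)).filter (fun b : ℕ => ∀ y ∈ Z, ¬ Dense Q y N (b : ℤ))).card : ℝ) ≤ ε * (PP y1 : ℝ)

open Classical in
/-- R9: most `b` which are dense at the scale `y` stay good for ever -/
def DenseModP (Q : Polynomial ℚ) : Prop := ∀ ε : ℝ, 0 < ε → ∃ y0 : ℕ, ∀ y : ℕ, y0 ≤ y → ∀ y1 : ℕ,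
  y ≤ y1 → ∀ᶠ N : ℕ in atTop,
  (((range (PP y1)).filter (fun b : ℕ => Dense Q y N (b : ℤ) ∧
    ∑ n ∈ range N, Ly y1 (sv Q n + 2 * (b : ℤ)) < Real.exp (-(2 * y)) / 2 * N)).card : ℝ) ≤
    ε * (PP y1 : ℝ)

open Classical in
/-- R10: the local statement for all residue classes -/
def AllMod (Q : Polynomial ℚ) : Prop := ∀ ε : ℝ, 0 < ε → ∃ y : ℕ, ∃ c : ℝ, 0 < c ∧ ∀ y1 : ℕ, y ≤ y1 →
  ∀ᶠ N : ℕ in atTop, (((range (PP y1)).filter (fun b : ℕ =>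
    ∑ n ∈ range N, Ly y1 (sv Q n + 2 * (b : ℤ)) < c * N)).card : ℝ) ≤ ε * (PP y1 : ℝ)

end Pool.Agent.PnT
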