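import Pool.Agent.PnT.Defs
import Pool.Agent.PnLG.AdmMod

/-!
# R9: most `b` which are dense at the scale `y` stay good for ever
-/

open Finset Filter

namespace Pool.Agent.PnT

open Pool.Agent.PnLG
open Pool.Agent.PnPoly.NC (np)

open ZM

namespace DM

/-- density at the scale `y` only depends on `b` modulo a multiple of the primes `≤ y` -/
lemma cop_shift {Q : Polynomial ℚ} {y N M0 : ℕ} (hM0 : ∀ p ∈ Py y, (p : ℤ) ∣ (M0 : ℤ))
    {β k : ℤ} : cop Q y N (β + M0 * k) = cop Q y N β := by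
  unfold cop
  congr 1
  refine filter_congr fun n _ => forall₂_congr fun p hp => not_congr ?_
  have h4 : sv Q n + 2 * (β + (M0 : ℤ) * k) = (sv Q n + 2 * β) + (M0 : ℤ) * (2 * k) := by ring
  rw [h4]
  exact (Int.dvd_add_left ((hM0 p hp).mul_right _))

end DM

open Classical in
/-- **R9**: most `b` which are dense at the scale `y` stay good for ever -/
theorem denseMod (Q : Polynomial ℚ) (hQ : IntVal Q) : DenseModP Q := by
  intro ε hε
  obtain ⟨y0, hy0⟩ := holder_pairs Q hQ 2 (ε / 8) (by norm_num) (by linarith)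
  refine ⟨max y0 2, ?_⟩
  intro y hyy y1 hy1
  have hy2 : 2 ≤ y := (le_max_right _ _).trans hyy
  have hyy0 : y0 ≤ y := (le_max_left _ _).trans hyy
  obtain ⟨M0, hM0⟩ : ∃ M0, M0 = ∏ p ∈ Py y, p := ⟨_, rfl⟩
  obtain ⟨Pi, hPi⟩ : ∃ Pi, Pi = ∏ p ∈ Py y1 \ Py y, p := ⟨_, rfl⟩
  have hprod : ∏ p ∈ Py y1, p = M0 * Pi := by
    rw [hM0, hPi, mul_comm, prod_sdiff (Py_mono hy1)]
  have hM0pos : 0 < M0 := by
    rw [hM0]
    exact prod_pos fun p hp => (mem_filter.mp hp).2.pos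
  have hM0dvd : ∀ p ∈ Py y, (p : ℤ) ∣ (M0 : ℤ) := by
    intro p hp
    rw [hM0]
    exact_mod_cast dvd_prod_of_mem (fun p => p) hp
  filter_upwards [hy0 y hyy0 y1, eventually_gt_atTop 0] with N hN hNpos
  unfold PP
  rw [hprod]
  refine (card_fibre (Pi := Pi) hM0pos _ (4 * (ε / 8)) ?_).trans
    (mul_le_mul_of_nonneg_right (by linarith) (Nat.cast_nonneg _))
  intro β hβ
  by_cases hadm : Dense Q y N (β : ℤ)
  · obtain ⟨S, hSdef⟩ : ∃ S, S = (range N).filter
      (fun n => ∀ p ∈ Py y, ¬ (p : ℤ) ∣ sv Q n + 2 * (β : ℤ)) := ⟨_, rfl⟩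
    have hSsub : S ⊆ range N := hSdef ▸ filter_subset _ _
    have hcopS : cop Q y N (β : ℤ) = S.card := by
      rw [hSdef]
      unfold cop
      congr 1
    have hexp : (N : ℝ) ≤ Real.exp (2 * y) * (S.card : ℝ) := by
      rw [← hcopS]
      exact hadm
    have hS : ∀ n ∈ S, ∀ p ∈ Py y, ¬ (p : ℤ) ∣ sv Q n + 2 * (β : ℤ) := by
      intro n hn
      rw [hSdef] at hn
      exact (mem_filter.mp hn).2
    have hSpos : (0 : ℝ) < S.card := by
      have h1 : (0 : ℝ) < N := by exact_mod_cast hNpos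
      by_contra hcon
      have h2 : Real.exp (2 * y) * (S.card : ℝ) ≤ 0 :=
        mul_nonpos_of_nonneg_of_nonpos (Real.exp_pos _).le (not_lt.mp hcon)
      linarith
    have hSne : S.Nonempty := by
      rw [← card_pos]
      exact_mod_cast hSpos
    have hpair := hN _ hSsub hexp
    have hW := W_small y y1 hy2 (β : ℤ) S (fun n => sv Q n) (ε / 8) (by linarith)
      hSne hpair
    rw [← hPi, ← hM0] at hW
    refine ⟨_, hW, ?_⟩
    intro k hk
    obtain ⟨hk1, -, hk2⟩ := mem_filter.mp hk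
    have hk3 : k < Pi := by
      rw [mem_range] at hk1
      have h1 : M0 * k < M0 * Pi := by omega
      exact Nat.lt_of_mul_lt_mul_left h1
    refine mem_filter.mpr ⟨mem_range.mpr hk3, ?_⟩
    have hle : ∑ n ∈ S, Lw y y1 (sv Q n + 2 * ((β : ℤ) + (M0 : ℤ) * (k : ℤ))) ≤
        ∑ n ∈ range N, Ly y1 (sv Q n + 2 * ((β + M0 * k : ℕ) : ℤ)) := by
      refine le_trans (sum_le_sum (f := fun n => Lw y y1 (sv Q n + 2 * ((β : ℤ) +
        (M0 : ℤ) * (k : ℤ)))) (g := fun n => Ly y1 (sv Q n + 2 * ((β + M0 * k : ℕ) : ℤ))) ?_)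
        (sum_le_sum_of_subset_of_nonneg hSsub fun n _ _ => Ly_nonneg _ _)
      intro n hn
      have hcast : ((β + M0 * k : ℕ) : ℤ) = (β : ℤ) + (M0 : ℤ) * (k : ℤ) := by push_cast; ring
      rw [hcast]
      apply Lw_le_Ly hy1
      intro p hp hdvd
      apply hS n hn p hp
      have h4 : sv Q n + 2 * (β : ℤ) =
          (sv Q n + 2 * ((β : ℤ) + (M0 : ℤ) * (k : ℤ))) - (M0 : ℤ) * (2 * k) := by ring
      rw [h4]
      exact dvd_sub hdvd ((hM0dvd p hp).mul_right _)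
    show ∑ n ∈ S, Lw y y1 (sv Q n + 2 * ((β : ℤ) + (M0 : ℤ) * (k : ℤ))) <
      (S.card : ℝ) / 2
    refine lt_of_le_of_lt hle (lt_of_lt_of_le hk2 ?_)
    have h1 : Real.exp (-(2 * y)) / 2 * N ≤
        Real.exp (-(2 * y)) / 2 * (Real.exp (2 * y) * S.card) :=
      mul_le_mul_of_nonneg_left hexp (by positivity)
    refine h1.trans (le_of_eq ?_)
    have h2 : Real.exp (-(2 * y : ℝ)) * Real.exp (2 * y) = 1 := by
      rw [← Real.exp_add, neg_add_cancel, Real.exp_zero]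
    calc Real.exp (-(2 * y)) / 2 * (Real.exp (2 * y) * S.card) =
          (Real.exp (-(2 * y)) * Real.exp (2 * y)) * S.card / 2 := by ring
      _ = S.card / 2 := by rw [h2, one_mul]
  · refine ⟨∅, by rw [card_empty, Nat.cast_zero]; positivity, ?_⟩
    intro k hk
    exfalso
    obtain ⟨-, h2, -⟩ := mem_filter.mp hk
    apply hadm
    have hcast : ((β + M0 * k : ℕ) : ℤ) = (β : ℤ) + (M0 : ℤ) * (k : ℤ) := by push_cast; ring
    unfold Dense at h2 ⊢
    rw [hcast, DM.cop_shift hM0dvd] at h2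
    exact h2

end Pool.Agent.PnT
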