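import Pool.Agent.PnT.Stage

/-!
# Iteration over the scales
-/

open Finset Filter

namespace Pool.Agent.PnT

open Pool.Agent.PnLG StageAux

namespace LevelsAux

open Classical in
/-- number of `b < n` with `P b` -/
noncomputable def cf (n : ℕ) (P : ℕ → Prop) : ℝ := (((range n).filter P).card : ℝ)

lemma cf_eq (n : ℕ) (P : ℕ → Prop) [DecidablePred P] :
    (((range n).filter P).card : ℝ) = cf n P := by
  unfold cf
  congr!

lemma cf_mono {n : ℕ} {P P' : ℕ → Prop} (h : ∀ b < n, P b → P' b) : cf n P ≤ cf n P' := by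
  classical
  unfold cf
  norm_cast
  apply Finset.card_le_card
  intro b hb
  have hb' := Finset.mem_filter.mp hb
  exact Finset.mem_filter.mpr ⟨hb'.1, h b (Finset.mem_range.mp hb'.1) hb'.2⟩

lemma step {m M : ℕ} (hm : 0 < m) (hd : m ∣ M) (P D : ℕ → Prop) (κ : ℝ)
    (h : ∀ β < m, κ * ((M : ℝ) / m) ≤ cf M (fun b : ℕ => b % m = β ∧ D b)) :
    cf M (fun b : ℕ => P (b % m) ∧ ¬ D b) ≤ (1 - κ) * ((M : ℝ) / m) * cf m P := by
  classical
  rw [← cf_eq, ← cf_eq]
  set S := (range M).filter (fun b : ℕ => P (b % m) ∧ ¬ D b) with hS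
  have h1 : S.card = ∑ β ∈ (range m).filter P, (S.filter (fun b => b % m = β)).card := by
    apply Finset.card_eq_sum_card_fiberwise
    intro b hb
    have hb' := Finset.mem_filter.mp (Finset.mem_coe.mp hb)
    apply Finset.mem_coe.mpr
    apply Finset.mem_filter.mpr
    exact ⟨Finset.mem_range.mpr (Nat.mod_lt _ hm), hb'.2.1⟩
  rw [h1, Nat.cast_sum]
  have h2 : ∀ β ∈ (range m).filter P, ((S.filter (fun b => b % m = β)).card : ℝ) ≤
      (1 - κ) * ((M : ℝ) / m) := by
    intro β hβ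
    have hβ' : β < m := Finset.mem_range.mp (Finset.mem_filter.mp hβ).1
    have h3 := card_class_dvd hβ' hd
    have h4 := h β hβ'
    rw [← cf_eq] at h4
    have h5 : (((range M).filter (fun b : ℕ => b % m = β ∧ D b)).card : ℝ) +
        ((S.filter (fun b => b % m = β)).card : ℝ) ≤
        (((range M).filter (fun b : ℕ => b % m = β)).card : ℝ) := by
      rw [← Nat.cast_add, ← Finset.card_union_of_disjoint]
      · norm_cast
        apply Finset.card_le_card
        intro b hb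
        rcases Finset.mem_union.mp hb with hb | hb
        · have h6 := Finset.mem_filter.mp hb
          exact Finset.mem_filter.mpr ⟨h6.1, h6.2.1⟩
        · have h6 := Finset.mem_filter.mp hb
          exact Finset.mem_filter.mpr ⟨(Finset.mem_filter.mp h6.1).1, h6.2⟩
      · rw [Finset.disjoint_left]
        intro b hb hb2
        have h6 := Finset.mem_filter.mp hb
        have h7 := Finset.mem_filter.mp (Finset.mem_filter.mp hb2).1
        exact h7.2.2 h6.2.2
    rw [h3] at h5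
    linarith
  have h3 := Finset.sum_le_card_nsmul _ _ _ h2
  rw [nsmul_eq_mul] at h3
  linarith

lemma pull {m M : ℕ} (hm : 0 < m) (hd : m ∣ M) (P : ℕ → Prop) :
    cf M (fun b : ℕ => P (b % m)) ≤ ((M : ℝ) / m) * cf m P := by
  have h := step hm hd P (fun _ => False) 0 (fun β _ => by
    rw [zero_mul]; unfold cf; exact Nat.cast_nonneg _)
  refine (cf_mono (fun b _ hb => ⟨hb, not_false⟩)).trans (h.trans (le_of_eq ?_))
  ring

lemma mod_sub_dvd {m M b : ℕ} (h : m ∣ M) : (m : ℤ) ∣ ((b % M : ℕ) : ℤ) - (b : ℤ) := by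
  have h7 : (m : ℤ) ∣ (M : ℤ) := Int.natCast_dvd_natCast.mpr h
  refine h7.trans ?_
  have h8 : ((b % M : ℕ) : ℤ) - (b : ℤ) = (M : ℤ) * (-((b / M : ℕ) : ℤ)) := by
    have h9 := Nat.mod_add_div b M
    have h10 : ((b % M : ℕ) : ℤ) + (M : ℤ) * ((b / M : ℕ) : ℤ) = b := by
      exact_mod_cast h9
    linarith
  rw [h8]
  exact dvd_mul_right _ _

end LevelsAux

open LevelsAux

/-- R8 -/
theorem levels (Q : Polynomial ℚ) (hS : StageP Q) : LevelsP Q := by
  classical
  intro ε hε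
  obtain ⟨κ, hκ, hκ1, z3, hS⟩ := hS
  obtain ⟨K0, hK0⟩ := exists_pow_lt_of_lt_one hε (show 1 - κ < 1 by linarith)
  have hK1 : (1 - κ) ^ (K0 + 1) ≤ ε := by
    refine le_trans ?_ hK0.le
    rw [pow_succ]
    exact mul_le_of_le_one_right (pow_nonneg (by linarith) _) (by linarith)
  choose! Y hY1 hY2 using hS
  refine ⟨K0 + 1, fun y0 => ?_⟩
  -- the scales
  obtain ⟨zs, hzs0, hzss⟩ : ∃ zs : ℕ → ℕ, zs 0 = max y0 z3 ∧ ∀ j, zs (j + 1) = Y (zs j) :=
    ⟨fun j => Nat.rec (max y0 z3) (fun _ t => Y t) j, rfl, fun j => rfl⟩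
  have hz3 : ∀ j, z3 ≤ zs j := by
    intro j
    induction j with
    | zero => rw [hzs0]; exact le_max_right _ _
    | succ j ih => rw [hzss]; exact ih.trans (hY1 _ ih)
  have hmono1 : ∀ j, zs j ≤ zs (j + 1) := fun j => by
    rw [hzss]; exact hY1 _ (hz3 j)
  have hmono : Monotone zs := monotone_nat_of_le_succ hmono1
  have hy0 : ∀ j, y0 ≤ zs j := fun j => by
    have h1 := hmono (Nat.zero_le j)
    rw [hzs0] at h1
    exact (le_max_left y0 z3).trans h1
  -- the bad classes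
  have main : ∀ j, ∀ᶠ N : ℕ in atTop,
      cf (PP (zs j)) (fun b : ℕ => ∀ i < j, ¬ Dense Q (zs (i + 1)) N (b : ℤ)) ≤
        (1 - κ) ^ j * (PP (zs j) : ℝ) := by
    intro j
    induction j with
    | zero =>
      apply Filter.Eventually.of_forall
      intro N
      rw [pow_zero, one_mul]
      unfold cf
      have := Finset.card_filter_le (range (PP (zs 0)))
        (fun b : ℕ => ∀ i < 0, ¬ Dense Q (zs (i + 1)) N (b : ℤ))
      rw [Finset.card_range] at this
      refine le_trans (le_of_eq ?_) (Nat.cast_le.mpr this)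
      congr!
    | succ j ih =>
      filter_upwards [ih, hY2 (zs j) (hz3 j)] with N h1 h2
      rw [← hzss] at h2
      have hd : PP (zs j) ∣ PP (zs (j + 1)) := PP_dvd (hmono1 j)
      have h3 := step (PP_pos (zs j)) hd (fun b : ℕ => ∀ i < j, ¬ Dense Q (zs (i + 1)) N (b : ℤ))
        (fun b : ℕ => Dense Q (zs (j + 1)) N (b : ℤ)) κ (fun β hβ => by
          rw [← cf_eq]
          exact h2 β hβ)
      have h4 : cf (PP (zs (j + 1))) (fun b : ℕ => ∀ i < j + 1, ¬ Dense Q (zs (i + 1)) N (b : ℤ)) ≤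
          cf (PP (zs (j + 1))) (fun b : ℕ =>
            (∀ i < j, ¬ Dense Q (zs (i + 1)) N ((b % PP (zs j) : ℕ) : ℤ)) ∧
              ¬ Dense Q (zs (j + 1)) N (b : ℤ)) := by
        apply cf_mono
        intro b _ hb
        refine ⟨?_, hb j (Nat.lt_succ_self j)⟩
        intro i hi
        rw [dense_congr Q _ N (mod_sub_dvd (PP_dvd (hmono (Nat.succ_le_of_lt hi))))]
        exact hb i (by omega)
      refine h4.trans (h3.trans ?_)
      have hP : (0:ℝ) < PP (zs j) := by exact_mod_cast PP_pos (zs j)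
      calc (1 - κ) * ((PP (zs (j + 1)) : ℝ) / PP (zs j)) *
            cf (PP (zs j)) (fun b : ℕ => ∀ i < j, ¬ Dense Q (zs (i + 1)) N (b : ℤ))
          ≤ (1 - κ) * ((PP (zs (j + 1)) : ℝ) / PP (zs j)) * ((1 - κ) ^ j * (PP (zs j) : ℝ)) :=
            mul_le_mul_of_nonneg_left h1
              (mul_nonneg (by linarith) (by positivity))
        _ = (1 - κ) ^ (j + 1) * (PP (zs (j + 1)) : ℝ) := by
            rw [pow_succ]
            field_simp
  refine ⟨(range (K0 + 1)).image (fun j => zs (j + 1)), ?_, ?_, ?_, ?_⟩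
  · exact ⟨zs 1, Finset.mem_image.mpr ⟨0, Finset.mem_range.mpr (Nat.succ_pos _), rfl⟩⟩
  · calc _ ≤ (range (K0 + 1)).card := Finset.card_image_le
      _ = K0 + 1 := Finset.card_range _
  · intro y hy
    obtain ⟨j, _, rfl⟩ := Finset.mem_image.mp hy
    exact hy0 (j + 1)
  · intro y1 hy1
    have hle : zs (K0 + 1) ≤ y1 :=
      hy1 _ (Finset.mem_image.mpr ⟨K0, Finset.mem_range.mpr (Nat.lt_succ_self _), rfl⟩)
    filter_upwards [main (K0 + 1)] with N h1
    have hd : PP (zs (K0 + 1)) ∣ PP y1 := PP_dvd hle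
    have h3 := pull (PP_pos (zs (K0 + 1))) hd
      (fun b : ℕ => ∀ i < K0 + 1, ¬ Dense Q (zs (i + 1)) N (b : ℤ))
    have h4 : cf (PP y1) (fun b : ℕ =>
        ∀ y ∈ (range (K0 + 1)).image (fun j => zs (j + 1)), ¬ Dense Q y N (b : ℤ)) ≤
        cf (PP y1) (fun b : ℕ =>
          ∀ i < K0 + 1, ¬ Dense Q (zs (i + 1)) N ((b % PP (zs (K0 + 1)) : ℕ) : ℤ)) := by
      apply cf_mono
      intro b _ hb i hi
      rw [dense_congr Q _ N (mod_sub_dvd (PP_dvd (hmono (Nat.succ_le_of_lt hi))))]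
      exact hb (zs (i + 1)) (Finset.mem_image.mpr ⟨i, Finset.mem_range.mpr hi, rfl⟩)
    have h5 : cf (PP y1) (fun b : ℕ =>
        ∀ y ∈ (range (K0 + 1)).image (fun j => zs (j + 1)), ¬ Dense Q y N (b : ℤ)) ≤
        ε * (PP y1 : ℝ) := by
      refine h4.trans (h3.trans ?_)
      have hP : (0:ℝ) < PP (zs (K0 + 1)) := by exact_mod_cast PP_pos (zs (K0 + 1))
      calc ((PP y1 : ℝ) / PP (zs (K0 + 1))) *
            cf (PP (zs (K0 + 1))) (fun b : ℕ => ∀ i < K0 + 1, ¬ Dense Q (zs (i + 1)) N (b : ℤ))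
          ≤ ((PP y1 : ℝ) / PP (zs (K0 + 1))) * ((1 - κ) ^ (K0 + 1) * (PP (zs (K0 + 1)) : ℝ)) :=
            mul_le_mul_of_nonneg_left h1 (by positivity)
        _ = (1 - κ) ^ (K0 + 1) * (PP y1 : ℝ) := by field_simp
        _ ≤ ε * (PP y1 : ℝ) := mul_le_mul_of_nonneg_right hK1 (Nat.cast_nonneg _)
    exact (@cf_eq (PP y1) _ _).le.trans h5

end Pool.Agent.PnT
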