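import Pool.Agent.PnT.Base
import Pool.Agent.PnLG.WMom

/-!
# R6: from the scale `z` to the scale `y`

First moment over the classes `b' = b + P(z) k` and a reverse Markov inequality.
-/

open Finset Filter

namespace Pool.Agent.PnT

open Pool.Agent.PnLG
open Pool.Agent.PnPoly.NC (np)

namespace Lift

open SZ

lemma factor_pos {p y z : ℕ} (hp : p ∈ Py z \ Py y) : 0 < 1 - 1 / (p : ℝ) := by
  have h := (mem_diff.mp hp).1
  have h1 : (1 : ℝ) < p := by exact_mod_cast h.one_lt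
  have h2 : 1 / (p : ℝ) < 1 := by rw [div_lt_one (by linarith)]; exact h1
  linarith

lemma tw_le_one (y z : ℕ) : tw y z ≤ 1 := by
  refine prod_le_one (fun p hp => (factor_pos hp).le) fun p _ => ?_
  have : (0 : ℝ) ≤ 1 / (p : ℝ) := by positivity
  linarith

open Classical in
/-- indicator of the integers without prime factors in `(z, y]` -/
noncomputable def ind (z y : ℕ) (m : ℤ) : ℝ := if ∀ p ∈ Py y \ Py z, ¬ (p : ℤ) ∣ m then 1 else 0

lemma ind_eq (z y : ℕ) (m : ℤ) : ind z y m = tw z y * Lw z y m := by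
  classical
  unfold ind tw Lw
  rw [← prod_mul_distrib]
  split_ifs with h
  · symm
    refine prod_eq_one fun p hp => ?_
    rw [if_neg (h p hp)]
    exact mul_inv_cancel₀ (factor_pos hp).ne'
  · push Not at h
    obtain ⟨p, hp, hd⟩ := h
    symm
    exact prod_eq_zero hp (by rw [if_pos hd, mul_zero])

lemma ind_nonneg (z y : ℕ) (m : ℤ) : 0 ≤ ind z y m := by
  unfold ind; split_ifs <;> norm_num

lemma ind_le (z y : ℕ) (m : ℤ) : ind z y m ≤ 1 := by
  unfold ind; split_ifs <;> norm_num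

/-- the indices which are free of the primes `≤ z` -/
noncomputable def SS (Q : Polynomial ℚ) (z N : ℕ) (b : ℤ) : Finset ℕ := by
  classical
  exact (range N).filter (fun n => ∀ p ∈ Py z, ¬ (p : ℤ) ∣ sv Q n + 2 * b)

lemma card_SS (Q : Polynomial ℚ) (z N : ℕ) (b : ℤ) : (SS Q z N b).card = cop Q z N b := by
  classical
  unfold SS cop
  congr

lemma cop_eq (Q : Polynomial ℚ) {z y : ℕ} (hzy : z ≤ y) (N : ℕ) (b k : ℤ) :
    (cop Q y N (b + (PP z : ℤ) * k) : ℝ) =
      ∑ n ∈ SS Q z N b, ind z y (sv Q n + 2 * (b + (PP z : ℤ) * k)) := by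
  classical
  rw [← card_SS]
  unfold SS
  rw [sum_filter, card_eq_sum_ones, sum_filter]
  push_cast
  refine sum_congr rfl fun n _ => ?_
  have hz : ∀ p ∈ Py z, ((p : ℤ) ∣ sv Q n + 2 * (b + (PP z : ℤ) * k) ↔ (p : ℤ) ∣ sv Q n + 2 * b) := by
    intro p hp
    have h1 : (p : ℤ) ∣ (PP z : ℤ) * (2 * k) :=
      (Int.natCast_dvd_natCast.mpr (dvd_PP hp)).mul_right _
    have h2 : sv Q n + 2 * (b + (PP z : ℤ) * k) = sv Q n + 2 * b + (PP z : ℤ) * (2 * k) := by ring
    rw [h2]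
    exact Int.dvd_add_left h1
  by_cases h1 : ∀ p ∈ Py z, ¬ (p : ℤ) ∣ sv Q n + 2 * b
  · rw [if_pos h1]
    unfold ind
    by_cases h2 : ∀ p ∈ Py y \ Py z, ¬ (p : ℤ) ∣ sv Q n + 2 * (b + (PP z : ℤ) * k)
    · rw [if_pos h2, if_pos]
      intro p hp
      by_cases hpz : p ∈ Py z
      · rw [hz p hpz]; exact h1 p hpz
      · exact h2 p (mem_sdiff.mpr ⟨hp, hpz⟩)
    · rw [if_neg h2, if_neg]
      intro h3
      exact h2 fun p hp => h3 p (mem_sdiff.mp hp).1
  · rw [if_neg h1, if_neg]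
    intro h3
    apply h1
    intro p hp
    rw [← hz p hp]
    exact h3 p (Py_sub hzy hp)

/-- first moment -/
lemma sum_cop (Q : Polynomial ℚ) {z y : ℕ} (hz : 2 ≤ z) (hzy : z ≤ y) (N : ℕ) (b : ℤ) :
    ∑ k ∈ range (∏ p ∈ Py y \ Py z, p), (cop Q y N (b + (PP z : ℤ) * (k : ℤ)) : ℝ) =
      tw z y * (((∏ p ∈ Py y \ Py z, p : ℕ) : ℝ) * (cop Q z N b : ℝ)) := by
  have h1 := W_mean z y hz b (SS Q z N b) (fun n => sv Q n)
  rw [card_SS] at h1
  rw [← h1, mul_sum]
  refine sum_congr rfl fun k _ => ?_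
  rw [cop_eq Q hzy, mul_sum]
  refine sum_congr rfl fun n _ => ?_
  rw [ind_eq]
  rfl

lemma cop_le (Q : Polynomial ℚ) {z y : ℕ} (hzy : z ≤ y) (N : ℕ) (b k : ℤ) :
    (cop Q y N (b + (PP z : ℤ) * k) : ℝ) ≤ (cop Q z N b : ℝ) := by
  rw [cop_eq Q hzy, ← card_SS Q z]
  refine (sum_le_sum fun n _ => ind_le z y _).trans (le_of_eq ?_)
  rw [sum_const, nsmul_eq_mul, mul_one]

/-- reverse Markov inequality -/
lemma rev_markov (P : ℕ) (X : ℕ → ℝ) (t c : ℝ) (ht : 0 ≤ t) (ht1 : t ≤ 1) (hc : 0 ≤ c)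
    (hX0 : ∀ k, 0 ≤ X k) (hX : ∀ k, X k ≤ c) (hs : ∑ k ∈ range P, X k = t * ((P : ℝ) * c)) :
    1 / 2 * t * P ≤ (((range P).filter (fun k => 1 / 2 * t * c ≤ X k)).card : ℝ) := by
  rcases hc.eq_or_lt with h | h
  · have h1 : (range P).filter (fun k => 1 / 2 * t * c ≤ X k) = range P := by
      refine filter_true_of_mem fun k _ => ?_
      rw [← h, mul_zero]
      exact hX0 k
    rw [h1, card_range]
    have hP : (0 : ℝ) ≤ P := Nat.cast_nonneg _
    nlinarith
  · have h1 := sum_filter_add_sum_filter_not (range P) (fun k => 1 / 2 * t * c ≤ X k) X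
    have h2 : ∑ k ∈ (range P).filter (fun k => 1 / 2 * t * c ≤ X k), X k ≤
        (((range P).filter (fun k => 1 / 2 * t * c ≤ X k)).card : ℝ) * c := by
      rw [← nsmul_eq_mul]
      exact sum_le_card_nsmul _ _ _ fun k _ => hX k
    have h3 : ∑ k ∈ (range P).filter (fun k => ¬ 1 / 2 * t * c ≤ X k), X k ≤
        (P : ℝ) * (1 / 2 * t * c) := by
      have h4 : ∑ k ∈ (range P).filter (fun k => ¬ 1 / 2 * t * c ≤ X k), X k ≤
          (((range P).filter (fun k => ¬ 1 / 2 * t * c ≤ X k)).card : ℝ) * (1 / 2 * t * c) := by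
        rw [← nsmul_eq_mul]
        exact sum_le_card_nsmul _ _ _ fun k hk => (not_le.mp (mem_filter.mp hk).2).le
      refine h4.trans (mul_le_mul_of_nonneg_right ?_ (by positivity))
      have h5 := card_filter_le (range P) (fun k => ¬ 1 / 2 * t * c ≤ X k)
      rw [card_range] at h5
      exact_mod_cast h5
    rw [hs] at h1
    have h6 : 1 / 2 * t * P * c ≤
        (((range P).filter (fun k => 1 / 2 * t * c ≤ X k)).card : ℝ) * c := by linarith
    exact le_of_mul_le_mul_right h6 h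

end Lift

open SZ Lift

/-- R6 -/
theorem lift (Q : Polynomial ℚ) : LiftP Q := by
  classical
  intro z y N b hz hzy hb
  obtain ⟨P, hP⟩ : ∃ P, P = ∏ p ∈ Py y \ Py z, p := ⟨_, rfl⟩
  have hsplit : PP y = PP z * P := by rw [hP]; exact PP_split hzy
  have hz0 : (0 : ℝ) < PP z := by exact_mod_cast PP_pos z
  have h1 := rev_markov P (fun k => (cop Q y N ((b : ℤ) + (PP z : ℤ) * (k : ℤ)) : ℝ)) (tw z y)
    (cop Q z N (b : ℤ) : ℝ) (tw_pos z y).le (tw_le_one z y) (Nat.cast_nonneg _)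
    (fun k => Nat.cast_nonneg _) (fun k => cop_le Q hzy N b k)
    (by rw [hP]; exact sum_cop Q hz hzy N b)
  have h2 : ((PP y : ℕ) : ℝ) / PP z = P := by
    rw [hsplit]
    push_cast
    field_simp
  rw [h2]
  refine h1.trans ?_
  rw [Nat.cast_le]
  refine card_le_card_of_injOn (fun k => b + PP z * k) ?_ ?_
  · intro k hk
    rw [mem_coe, mem_filter, mem_range] at hk
    rw [mem_coe, mem_filter, mem_range]
    refine ⟨?_, ?_, ?_⟩
    · rw [hsplit]
      calc b + PP z * k < PP z + PP z * k := by omega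
        _ = PP z * (k + 1) := by ring
        _ ≤ PP z * P := Nat.mul_le_mul_left _ hk.1
    · rw [Nat.add_mul_mod_self_left, Nat.mod_eq_of_lt hb]
    · have h3 := hk.2
      push_cast
      exact h3
  · intro k _ k' _ h
    have h3 : PP z * k = PP z * k' := by
      have h4 : b + PP z * k = b + PP z * k' := h
      omega
    exact Nat.eq_of_mul_eq_mul_left (PP_pos z) h3

end Pool.Agent.PnT
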