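import Pool.Agent.PnT.Defs
import Pool.Agent.HLT.Mertens

/-!
# One stage

`StageZ` at the scale `z`, then the lift from `z` to `y = ⌈z^C⌉`.
-/

open Finset Filter

namespace Pool.Agent.PnT

open Pool.Agent.PnLG

namespace StageAux

lemma mem_Py {y p : ℕ} : p ∈ Py y ↔ p ≤ y ∧ p.Prime := by
  unfold Py
  rw [Finset.mem_filter, Finset.mem_Icc]
  constructor
  · rintro ⟨⟨_, h⟩, hp⟩; exact ⟨h, hp⟩
  · rintro ⟨h, hp⟩; exact ⟨⟨hp.one_lt.le, h⟩, hp⟩

lemma PP_pos (y : ℕ) : 0 < PP y := by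
  unfold PP
  exact Finset.prod_pos fun p hp => (mem_Py.mp hp).2.pos

lemma Py_sub {z y : ℕ} (h : z ≤ y) : Py z ⊆ Py y := by
  intro p hp
  rw [mem_Py] at hp ⊢
  exact ⟨hp.1.trans h, hp.2⟩

lemma PP_dvd {z y : ℕ} (h : z ≤ y) : PP z ∣ PP y := by
  unfold PP
  exact Finset.prod_dvd_prod_of_subset _ _ _ (Py_sub h)

lemma dvd_PP {y p : ℕ} (hp : p ∈ Py y) : p ∣ PP y := by
  unfold PP
  exact Finset.dvd_prod_of_mem _ hp

/-- `cop` depends on `b` modulo `PP y` only -/
lemma cop_congr (Q : Polynomial ℚ) (y N : ℕ) {b b' : ℤ} (h : (PP y : ℤ) ∣ b - b') :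
    cop Q y N b = cop Q y N b' := by
  unfold cop
  congr 1
  apply Finset.filter_congr
  intro n _
  have key : ∀ p ∈ Py y, ((p : ℤ) ∣ sv Q n + 2 * b ↔ (p : ℤ) ∣ sv Q n + 2 * b') := by
    intro p hp
    have h1 : (p : ℤ) ∣ b - b' := (Int.natCast_dvd_natCast.mpr (dvd_PP hp)).trans h
    have h2 : (p : ℤ) ∣ (sv Q n + 2 * b) - (sv Q n + 2 * b') := by
      have : (sv Q n + 2 * b) - (sv Q n + 2 * b') = 2 * (b - b') := by ring
      rw [this]
      exact h1.mul_left 2
    exact (dvd_iff_dvd_of_dvd_sub h2)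
  constructor
  · intro h1 p hp; rw [← key p hp]; exact h1 p hp
  · intro h1 p hp; rw [key p hp]; exact h1 p hp

lemma dense_congr (Q : Polynomial ℚ) (y N : ℕ) {b b' : ℤ} (h : (PP y : ℤ) ∣ b - b') :
    Dense Q y N b ↔ Dense Q y N b' := by
  unfold Dense
  rw [cop_congr Q y N h]

/-- a class modulo `m` has `k` members below `m k` -/
lemma card_class {m k b : ℕ} (hb : b < m) :
    ((range (m * k)).filter (fun x => x % m = b)).card = k := by
  have hm : 0 < m := by omega
  have h : (range (m * k)).filter (fun x => x % m = b) = (range k).image (fun t => b + m * t) := by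
    ext x
    rw [Finset.mem_filter, Finset.mem_range, Finset.mem_image]
    constructor
    · rintro ⟨h1, h2⟩
      refine ⟨x / m, ?_, ?_⟩
      · rw [Finset.mem_range]
        exact Nat.div_lt_of_lt_mul h1
      · have := Nat.mod_add_div x m
        rw [h2] at this
        exact this
    · rintro ⟨t, ht, rfl⟩
      rw [Finset.mem_range] at ht
      constructor
      · calc b + m * t < m + m * t := by omega
          _ = m * (t + 1) := by ring
          _ ≤ m * k := Nat.mul_le_mul_left m ht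
      · rw [Nat.add_mul_mod_self_left]
        exact Nat.mod_eq_of_lt hb
  rw [h, Finset.card_image_of_injective, Finset.card_range]
  intro a c hac
  have h1 : b + m * a = b + m * c := hac
  have h2 : m * a = m * c := by omega
  exact Nat.eq_of_mul_eq_mul_left hm h2

lemma card_class_dvd {m M b : ℕ} (hb : b < m) (h : m ∣ M) :
    (((range M).filter (fun x => x % m = b)).card : ℝ) = (M : ℝ) / m := by
  obtain ⟨k, rfl⟩ := h
  have hm : (0:ℝ) < m := by exact_mod_cast (by omega : 0 < m)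
  rw [card_class hb]
  push_cast
  field_simp

lemma tw_eq_th (z y : ℕ) : tw z y = Pool.Agent.HLT.th z y := by
  unfold tw Pool.Agent.HLT.th
  apply Finset.prod_congr _ (fun _ _ => rfl)
  ext p
  rw [Finset.mem_sdiff, mem_Py, mem_Py, Finset.mem_filter, Pool.Agent.HLT.B1aux.mem_PPy]
  constructor
  · rintro ⟨⟨h1, h2⟩, h3⟩
    refine ⟨⟨h1, h2⟩, ?_⟩
    by_contra h4
    exact h3 ⟨by omega, h2⟩
  · rintro ⟨⟨h1, h2⟩, h3⟩
    exact ⟨⟨h1, h2⟩, fun h4 => by omega⟩

end StageAux

open StageAux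

/-- R7 -/
theorem stage (Q : Polynomial ℚ) (hZ : StageZ Q) (hL : LiftP Q) : StageP Q := by
  classical
  obtain ⟨κ, C, hκ, hC, z3, hZ⟩ := hZ
  obtain ⟨C1, hC1, hth⟩ := Pool.Agent.HLT.th_ratio
  have hCC : 0 < 4 * C1 * C := by positivity
  have hCC1 : 1 ≤ 4 * C1 * C := by nlinarith
  refine ⟨min 1 (κ / (4 * C1 * C)), lt_min one_pos (by positivity), min_le_left _ _, z3, ?_⟩
  intro z0 hz0
  obtain ⟨z, ⟨hz2, hzz0, hzC⟩, hz⟩ := ((eventually_ge_atTop 2).and
    ((eventually_ge_atTop z0).and (eventually_ge_atTop ⌈4 * C1 * C⌉₊)) |>.and (hZ z0 hz0)).exists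
  have hz1r : (1:ℝ) ≤ z := by exact_mod_cast (by omega : 1 ≤ z)
  have hz2r : (2:ℝ) ≤ z := by exact_mod_cast hz2
  have hzCr : 4 * C1 * C ≤ z := (Nat.le_ceil _).trans (by exact_mod_cast hzC)
  have hzp : (z:ℝ) ≤ (z:ℝ) ^ C := by
    calc (z:ℝ) = (z:ℝ) ^ (1:ℝ) := (Real.rpow_one _).symm
      _ ≤ (z:ℝ) ^ C := Real.rpow_le_rpow_of_exponent_le hz1r hC
  set y := ⌈(z:ℝ) ^ C⌉₊ with hy
  have hyr : (z:ℝ) ^ C ≤ y := Nat.le_ceil _
  have hzy : z ≤ y := by
    have : (z:ℝ) ≤ y := hzp.trans hyr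
    exact_mod_cast this
  refine ⟨y, hzz0.trans hzy, ?_⟩
  -- the loss of the lift
  have htw : 1 / (4 * C1 * C) ≤ 1 / 2 * tw z y := by
    have hlz : 0 < Real.log z := Real.log_pos (by linarith)
    have hyle : (y:ℝ) ≤ 2 * (z:ℝ) ^ C := by
      have := (Nat.ceil_lt_add_one (by positivity : (0:ℝ) ≤ (z:ℝ) ^ C)).le
      linarith
    have hlogy : Real.log y ≤ 2 * C * Real.log z := by
      have h1 : Real.log y ≤ Real.log (2 * (z:ℝ) ^ C) :=
        Real.log_le_log (by exact_mod_cast (by omega : 0 < y)) hyle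
      rw [Real.log_mul (by norm_num) (by positivity), Real.log_rpow (by linarith)] at h1
      have h2 : Real.log 2 ≤ Real.log z := Real.log_le_log (by norm_num) hz2r
      have h3 : Real.log z ≤ C * Real.log z := by nlinarith
      linarith
    have h1 := hth z y hz2 hzy
    rw [← tw_eq_th] at h1
    have htp : 0 < tw z y := by rw [tw_eq_th]; exact Pool.Agent.HLT.th_pos z y
    have h2 : (tw z y)⁻¹ ≤ 2 * C1 * C := by
      refine h1.trans ?_
      have : Real.log y / Real.log z ≤ 2 * C := by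
        rw [div_le_iff₀ hlz]; exact hlogy
      calc C1 * (Real.log y / Real.log z) ≤ C1 * (2 * C) :=
            mul_le_mul_of_nonneg_left this (by linarith)
        _ = 2 * C1 * C := by ring
    have h3 : 1 / (2 * C1 * C) ≤ tw z y := by
      rw [one_div]
      have := inv_anti₀ (inv_pos.mpr htp) h2
      rwa [inv_inv] at this
    calc 1 / (4 * C1 * C) = 1 / 2 * (1 / (2 * C1 * C)) := by
          field_simp
          norm_num
      _ ≤ 1 / 2 * tw z y := by linarith
  have hexp : 1 ≤ Real.exp ((z:ℝ) ^ C) * (1 / (4 * C1 * C)) := by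
    rw [mul_one_div, le_div_iff₀ hCC, one_mul]
    have := Real.add_one_le_exp ((z:ℝ) ^ C)
    linarith
  filter_upwards [hz] with N hN
  intro β hβ
  have hgood := hN β hβ
  set G := (range (PP z)).filter (fun b : ℕ => b % PP z0 = β ∧
    (N : ℝ) ≤ Real.exp ((z : ℝ) ^ C) * (cop Q z N (b : ℤ) : ℝ)) with hG
  set D := (range (PP y)).filter (fun b : ℕ => b % PP z0 = β ∧ Dense Q y N (b : ℤ)) with hD
  have hPz : (0:ℝ) < PP z := by exact_mod_cast PP_pos z
  have hPz0 : (0:ℝ) < PP z0 := by exact_mod_cast PP_pos z0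
  have hPy : (0:ℝ) < PP y := by exact_mod_cast PP_pos y
  -- the sub-classes of a good class
  have hfib : ∀ b ∈ G, 1 / (4 * C1 * C) * ((PP y : ℝ) / PP z) ≤
      ((D.filter (fun b' => b' % PP z = b)).card : ℝ) := by
    intro b hb
    rw [hG, Finset.mem_filter, Finset.mem_range] at hb
    obtain ⟨hb1, hb2, hb3⟩ := hb
    have h1 := hL z y N b hz2 hzy hb1
    have h2 : 1 / (4 * C1 * C) * ((PP y : ℝ) / PP z) ≤ 1 / 2 * tw z y * ((PP y : ℝ) / PP z) :=
      mul_le_mul_of_nonneg_right htw (by positivity)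
    refine h2.trans (h1.trans ?_)
    norm_cast
    apply Finset.card_le_card
    intro b' hb'
    rw [Finset.mem_filter, Finset.mem_range] at hb'
    obtain ⟨h3, h4, h5⟩ := hb'
    rw [Finset.mem_filter, hD, Finset.mem_filter, Finset.mem_range]
    refine ⟨⟨h3, ?_, ?_⟩, h4⟩
    · rw [← hb2, ← h4]
      exact (Nat.mod_mod_of_dvd b' (PP_dvd hzz0)).symm
    · unfold Dense
      have hcz : 0 ≤ (cop Q z N (b : ℤ) : ℝ) := Nat.cast_nonneg _
      have h6 : 1 / (4 * C1 * C) * (cop Q z N (b : ℤ) : ℝ) ≤ (cop Q y N (b' : ℤ) : ℝ) :=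
        (mul_le_mul_of_nonneg_right htw hcz).trans h5
      have h7 : Real.exp ((z:ℝ) ^ C) * Real.exp ((z:ℝ) ^ C) ≤ Real.exp (2 * y) := by
        rw [← Real.exp_add]
        apply Real.exp_le_exp.mpr
        linarith
      calc (N:ℝ) ≤ Real.exp ((z:ℝ) ^ C) * (cop Q z N (b : ℤ) : ℝ) := hb3
        _ ≤ Real.exp ((z:ℝ) ^ C) * ((Real.exp ((z:ℝ) ^ C) * (1 / (4 * C1 * C))) *
              (cop Q z N (b : ℤ) : ℝ)) := by
            refine mul_le_mul_of_nonneg_left ?_ (Real.exp_pos _).le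
            exact le_mul_of_one_le_left hcz hexp
        _ = (Real.exp ((z:ℝ) ^ C) * Real.exp ((z:ℝ) ^ C)) *
              (1 / (4 * C1 * C) * (cop Q z N (b : ℤ) : ℝ)) := by ring
        _ ≤ Real.exp (2 * y) * (cop Q y N (b' : ℤ) : ℝ) :=
            mul_le_mul h7 h6 (by positivity) (Real.exp_pos _).le
  -- sum over the good classes
  have hsum : ∑ b ∈ G, ((D.filter (fun b' => b' % PP z = b)).card : ℝ) ≤ (D.card : ℝ) := by
    have h1 : ∑ b ∈ G, (D.filter (fun b' => b' % PP z = b)).card =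
        (D.filter (fun b' => b' % PP z ∈ G)).card := by
      rw [Finset.card_eq_sum_card_fiberwise (f := fun b' => b' % PP z) (t := G)]
      · apply Finset.sum_congr rfl
        intro b hb
        congr 1
        ext b'
        constructor
        · intro h
          obtain ⟨h1, h2⟩ := Finset.mem_filter.mp h
          exact Finset.mem_filter.mpr ⟨Finset.mem_filter.mpr ⟨h1, by rw [h2]; exact hb⟩, h2⟩
        · intro h
          obtain ⟨h1, h2⟩ := Finset.mem_filter.mp h
          exact Finset.mem_filter.mpr ⟨(Finset.mem_filter.mp h1).1, h2⟩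
      · intro b' hb'
        exact (Finset.mem_filter.mp (Finset.mem_coe.mp hb')).2
    have h2 : (D.filter (fun b' => b' % PP z ∈ G)).card ≤ D.card :=
      Finset.card_le_card (Finset.filter_subset _ _)
    rw [← Nat.cast_sum, h1]
    exact_mod_cast h2
  have hlow : (G.card : ℝ) * (1 / (4 * C1 * C) * ((PP y : ℝ) / PP z)) ≤
      ∑ b ∈ G, ((D.filter (fun b' => b' % PP z = b)).card : ℝ) := by
    rw [← nsmul_eq_mul]
    exact Finset.card_nsmul_le_sum _ _ _ hfib
  calc min 1 (κ / (4 * C1 * C)) * ((PP y : ℝ) / PP z0)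
      ≤ (κ / (4 * C1 * C)) * ((PP y : ℝ) / PP z0) :=
        mul_le_mul_of_nonneg_right (min_le_right _ _) (by positivity)
    _ = (κ * ((PP z : ℝ) / PP z0)) * (1 / (4 * C1 * C) * ((PP y : ℝ) / PP z)) := by
        field_simp
    _ ≤ (G.card : ℝ) * (1 / (4 * C1 * C) * ((PP y : ℝ) / PP z)) :=
        mul_le_mul_of_nonneg_right hgood (by positivity)
    _ ≤ (D.card : ℝ) := hlow.trans hsum

end Pool.Agent.PnT
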