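import Pool.Agent.PnT.Base

/-!
# R5: the scale `z`, density `exp(-z^C)`, for a positive proportion of the `b` in every class
-/

open Finset Filter

namespace Pool.Agent.PnT

open Pool.Agent.PnLG
open Pool.Agent.PnPoly.NC (np)

namespace SZ

lemma per_Py (Q : Polynomial ℚ) (D : ℕ) (hper : ∀ p : ℕ, p.Prime → ∀ m m' : ℤ,
    ((p : ℤ) ^ (D.factorization p + 1) ∣ m - m') →
    (p : ℤ) ∣ ⌊Q.eval (m : ℚ)⌋ - ⌊Q.eval (m' : ℚ)⌋) {z p : ℕ} (hp : p ∈ Py z) (m m' : ℤ)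
    (h : ((∏ p ∈ Py z, p ^ (D.factorization p + 1) : ℕ) : ℤ) ∣ m - m') :
    (p : ℤ) ∣ qi Q m - qi Q m' := by
  unfold qi
  refine hper p (mem_Py.mp hp).1 m m' (dvd_trans ?_ h)
  have h1 : p ^ (D.factorization p + 1) ∣ ∏ p ∈ Py z, p ^ (D.factorization p + 1) :=
    dvd_prod_of_mem (fun p => p ^ (D.factorization p + 1)) hp
  exact_mod_cast h1

/-- strings in the class `c` modulo `PP z` and in the class `ν0` modulo `G` -/
lemma cop_ge (Q : Polynomial ℚ) (D : ℕ) (hper : ∀ p : ℕ, p.Prime → ∀ m m' : ℤ,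
    ((p : ℤ) ^ (D.factorization p + 1) ∣ m - m') →
    (p : ℤ) ∣ ⌊Q.eval (m : ℚ)⌋ - ⌊Q.eval (m' : ℚ)⌋) (z N r ν0 c i : ℕ) (b : ℤ) (S : Finset ℕ)
    (hS : ∀ j ∈ S, j + r ≤ N ∧ j % (∏ p ∈ Py z, p ^ (D.factorization p + 1)) = ν0 ∧
      ∀ i < r, np (j + i) % PP z = c % PP z) (hi : i < r)
    (hb : ∀ p ∈ Py z, ¬ (p : ℤ) ∣ c + 2 * qi Q ((ν0 : ℤ) + 1 + i) + 2 * b) :
    S.card ≤ cop Q z N b := by
  unfold cop
  refine card_le_card_of_injOn (fun j => j + i) ?_ (fun a _ b _ h => by simpa using h)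
  intro j hj
  obtain ⟨h1, h2, h3⟩ := hS j (mem_coe.mp hj)
  rw [mem_coe, mem_filter, mem_range]
  refine ⟨by show j + i < N; omega, fun p hp hd => hb p hp ?_⟩
  have e1 : (p : ℤ) ∣ (np (j + i) : ℤ) - c := by
    have h4 : (np (j + i) : ℤ) ≡ c [ZMOD PP z] := by
      have := h3 i hi
      exact (Int.natCast_modEq_iff).mpr this
    have h5 : ((PP z : ℕ) : ℤ) ∣ (np (j + i) : ℤ) - c := (Int.modEq_iff_dvd.mp h4.symm)
    exact dvd_trans (Int.natCast_dvd_natCast.mpr (dvd_PP hp)) h5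
  have e2 : (p : ℤ) ∣ qi Q ((j + i + 1 : ℕ) : ℤ) - qi Q ((ν0 : ℤ) + 1 + i) := by
    refine per_Py Q D hper hp _ _ ?_
    have h4 : ((j + i + 1 : ℕ) : ℤ) - ((ν0 : ℤ) + 1 + i) = (j : ℤ) - ν0 := by push_cast; ring
    rw [h4, ← h2]
    have h5 := Nat.div_add_mod j (∏ p ∈ Py z, p ^ (D.factorization p + 1))
    refine ⟨((j / (∏ p ∈ Py z, p ^ (D.factorization p + 1)) : ℕ) : ℤ), ?_⟩
    have h6 : (j : ℤ) = ((∏ p ∈ Py z, p ^ (D.factorization p + 1) : ℕ) : ℤ) *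
      ((j / (∏ p ∈ Py z, p ^ (D.factorization p + 1)) : ℕ) : ℤ) +
      ((j % (∏ p ∈ Py z, p ^ (D.factorization p + 1)) : ℕ) : ℤ) := by
      exact_mod_cast h5.symm
    linarith
  have e3 : sv Q (j + i) = (np (j + i) : ℤ) + 2 * qi Q ((j + i + 1 : ℕ) : ℤ) := by
    unfold sv
    rw [qv_qi]
  have e4 : (c : ℤ) + 2 * qi Q ((ν0 : ℤ) + 1 + i) + 2 * b = (sv Q (j + i) + 2 * b) -
      ((np (j + i) : ℤ) - c) - 2 * (qi Q ((j + i + 1 : ℕ) : ℤ) - qi Q ((ν0 : ℤ) + 1 + i)) := by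
    rw [e3]; ring
  rw [e4]
  exact dvd_sub (dvd_sub hd e1) (Dvd.dvd.mul_left e2 2)

lemma two_mul_dvd {p : ℕ} (hp : p.Prime) (h2 : 2 < p) (x : ℤ) : (p : ℤ) ∣ 2 * x ↔ (p : ℤ) ∣ x := by
  constructor
  · intro h
    have hco : IsCoprime (p : ℤ) 2 := by
      have h3 : Nat.Coprime p 2 := (Nat.coprime_primes hp Nat.prime_two).mpr (by omega)
      exact_mod_cast Nat.isCoprime_iff_coprime.mpr h3
    exact hco.dvd_of_dvd_mul_left h
  · exact fun h => Dvd.dvd.mul_left h 2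

open Classical in
/-- the second moment over `b` -/
lemma window_b (Q : Polynomial ℚ) (hW : WindowP) (d z0 r z c c0 β : ℕ) (ν : ℤ) (e0 : ℝ)
    (he0 : 0 < e0) (hz0 : 2 ≤ z0) (h1 : z0 ≤ r) (h2 : r ≤ z) (hc : c ≡ c0 [MOD PP z0])
    (hβ : β < PP z0) (I : Finset ℕ) (hne : I.Nonempty)
    (hI : ∀ i ∈ I, ∀ p ∈ Py z0, ¬ (p : ℤ) ∣ c0 + 2 * qi Q (ν + i) + 2 * (β : ℤ))
    (hd : ∀ p ∈ Py z \ Py r, ∀ j ∈ I,
      (I.filter (fun i : ℕ => (p : ℤ) ∣ qi Q (ν + i) - qi Q (ν + j))).card ≤ d)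
    (hp : ∑ i ∈ I, ∑ j ∈ I, ∏ p ∈ (Py r \ Py z0).filter
      (fun p : ℕ => (p : ℤ) ∣ qi Q (ν + i) - qi Q (ν + j)), (1 - 1 / (p : ℝ))⁻¹ ≤
        3 * (I.card : ℝ) ^ 2)
    (he : e0 ≤ I.card * tw z0 z) :
    e0 / (3 * e0 + d) * ((PP z : ℝ) / PP z0) ≤ (((range (PP z)).filter (fun b : ℕ =>
      b % PP z0 = β ∧ ∃ i ∈ I, ∀ p ∈ Py z,
        ¬ (p : ℤ) ∣ c + 2 * qi Q (ν + i) + 2 * (b : ℤ))).card : ℝ) := by
  have hv : ∀ p : ℕ, p.Prime → 2 < p → ∀ i j : ℕ,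
      ((p : ℤ) ∣ ((c : ℤ) + 2 * qi Q (ν + i)) - ((c : ℤ) + 2 * qi Q (ν + j)) ↔
        (p : ℤ) ∣ qi Q (ν + i) - qi Q (ν + j)) := by
    intro p hp h2 i j
    rw [show ((c : ℤ) + 2 * qi Q (ν + i)) - ((c : ℤ) + 2 * qi Q (ν + j)) =
      2 * (qi Q (ν + i) - qi Q (ν + j)) by ring]
    exact two_mul_dvd hp h2 _
  have key := hW d z0 r z I (fun i => (c : ℤ) + 2 * qi Q (ν + i)) (β : ℤ) hz0 h1 h2 hne (by
      intro p hpm j hj
      have hm := mem_diff.mp hpm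
      have := hd p hpm j hj
      refine le_trans (le_of_eq ?_) this
      congr 1
      exact filter_congr fun i _ => hv p hm.1 (by omega) i j) (by
      refine le_trans (le_of_eq ?_) hp
      refine sum_congr rfl fun i _ => sum_congr rfl fun j _ => ?_
      refine prod_congr ?_ fun _ _ => rfl
      refine filter_congr fun p hpm => ?_
      have hm := mem_diff.mp hpm
      exact hv p hm.1 (by omega) i j)
  have hz : z0 ≤ z := h1.trans h2
  have hsplit := PP_split hz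
  set M := ∏ p ∈ Py z \ Py z0, p with hM
  have hP0 : (0 : ℝ) < (PP z0 : ℝ) := by exact_mod_cast PP_pos z0
  have hMr : (PP z : ℝ) / PP z0 = (M : ℝ) := by
    rw [hsplit]
    push_cast
    field_simp
  rw [hMr]
  have hmono : e0 / (3 * e0 + d) ≤ (I.card * tw z0 z) / (3 * (I.card * tw z0 z) + d) := by
    have hd0 : (0 : ℝ) ≤ (d : ℝ) := Nat.cast_nonneg d
    rw [div_le_div_iff₀ (by positivity) (by nlinarith)]
    nlinarith
  refine le_trans (mul_le_mul_of_nonneg_right hmono (Nat.cast_nonneg M)) (le_trans key ?_)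
  have hcard : ((range M).filter (fun k : ℕ => ∃ i ∈ I, ∀ p ∈ Py z \ Py z0,
      ¬ (p : ℤ) ∣ (c : ℤ) + 2 * qi Q (ν + i) + 2 * ((β : ℤ) + (PP z0 : ℤ) * (k : ℤ)))).card ≤
      ((range (PP z)).filter (fun b : ℕ =>
      b % PP z0 = β ∧ ∃ i ∈ I, ∀ p ∈ Py z,
        ¬ (p : ℤ) ∣ c + 2 * qi Q (ν + i) + 2 * (b : ℤ))).card := by
    refine card_le_card_of_injOn (fun k => β + PP z0 * k) ?_ ?_
    · intro k hk
      rw [mem_coe, mem_filter, mem_range] at hk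
      obtain ⟨hk1, i, hi, hk2⟩ := hk
      rw [mem_coe, mem_filter, mem_range]
      refine ⟨?_, ?_, i, hi, ?_⟩
      · rw [hsplit]
        calc β + PP z0 * k < PP z0 + PP z0 * k := by omega
          _ = PP z0 * (k + 1) := by ring
          _ ≤ PP z0 * M := Nat.mul_le_mul_left _ hk1
      · rw [Nat.add_mul_mod_self_left, Nat.mod_eq_of_lt hβ]
      · intro p hpz hdv
        by_cases hp0 : p ∈ Py z0
        · refine hI i hi p hp0 ?_
          have hpd : (p : ℤ) ∣ (PP z0 : ℤ) := Int.natCast_dvd_natCast.mpr (dvd_PP hp0)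
          have hcc : (p : ℤ) ∣ (c : ℤ) - c0 := by
            have h4 : (c : ℤ) ≡ c0 [ZMOD PP z0] := (Int.natCast_modEq_iff).mpr hc
            exact dvd_trans hpd (Int.modEq_iff_dvd.mp h4.symm)
          have e1 : (c0 : ℤ) + 2 * qi Q (ν + i) + 2 * (β : ℤ) =
              ((c : ℤ) + 2 * qi Q (ν + i) + 2 * (((β + PP z0 * k : ℕ)) : ℤ)) - ((c : ℤ) - c0) -
              (PP z0 : ℤ) * (2 * k) := by
            push_cast; ring
          rw [e1]
          exact dvd_sub (dvd_sub hdv hcc) (Dvd.dvd.mul_right hpd _)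
        · refine hk2 p ?_ ?_
          · rw [Finset.mem_sdiff]; exact ⟨hpz, hp0⟩
          · have e1 : (c : ℤ) + 2 * qi Q (ν + i) + 2 * ((β : ℤ) + (PP z0 : ℤ) * (k : ℤ)) =
                (c : ℤ) + 2 * qi Q (ν + i) + 2 * (((β + PP z0 * k : ℕ)) : ℤ) := by
              push_cast; ring
            rw [e1]; exact hdv
    · intro a _ b _ h
      have h' : β + PP z0 * a = β + PP z0 * b := h
      have h3 : PP z0 * a = PP z0 * b := by omega
      exact Nat.eq_of_mul_eq_mul_left (PP_pos z0) h3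
  exact_mod_cast hcard

lemma size_le (D : ℕ) (hD : 0 < D) (C1 : ℝ) (hC1 : 0 < C1) (z : ℕ) (h3 : 3 ≤ z)
    (hz : Real.log (2 * D) ≤ z) :
    2 * ((D * 4 ^ z : ℕ) : ℝ) * Real.exp (Real.exp (C1 * (⌊Real.log z⌋₊ : ℕ)) *
      (1 + Real.log (PP z))) ≤ Real.exp ((z : ℝ) ^ (C1 + 3)) := by
  have hz3 : (3 : ℝ) ≤ z := by exact_mod_cast h3
  have hz0 : (0 : ℝ) < z := by linarith
  have hD0 : (0 : ℝ) < D := by exact_mod_cast hD
  have hlz : 0 ≤ Real.log z := Real.log_nonneg (by linarith)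
  have hl4 : Real.log 4 ≤ 2 := by
    have h := Real.log_two_lt_d9
    have h4 : Real.log 4 = 2 * Real.log 2 := by
      rw [show (4 : ℝ) = 2 ^ 2 by norm_num, Real.log_pow]; norm_num
    rw [h4]; linarith
  have h1 : Real.exp (C1 * (⌊Real.log z⌋₊ : ℕ)) ≤ (z : ℝ) ^ C1 := by
    rw [Real.rpow_def_of_pos hz0]
    refine Real.exp_le_exp.mpr ?_
    rw [mul_comm]
    exact mul_le_mul_of_nonneg_right (Nat.floor_le hlz) hC1.le
  have h2 : Real.log (PP z) ≤ 2 * z := by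
    have h5 : Real.log (PP z) ≤ Real.log ((4 : ℝ) ^ z) := by
      refine Real.log_le_log (by exact_mod_cast PP_pos z) ?_
      exact_mod_cast PP_le z
    rw [Real.log_pow] at h5
    nlinarith
  have h2' : 0 ≤ Real.log (PP z) := Real.log_natCast_nonneg _
  have h4 : 2 * ((D * 4 ^ z : ℕ) : ℝ) ≤ Real.exp (3 * z) := by
    have h6 : 2 * ((D * 4 ^ z : ℕ) : ℝ) = Real.exp (Real.log (2 * D) + z * Real.log 4) := by
      rw [Real.exp_add, Real.exp_log (by positivity), mul_comm (z : ℝ), ← Real.rpow_def_of_pos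
        (by norm_num : (0:ℝ) < 4), Real.rpow_natCast]
      push_cast; ring
    rw [h6]
    refine Real.exp_le_exp.mpr ?_
    nlinarith
  have hzC : (1 : ℝ) ≤ (z : ℝ) ^ C1 := Real.one_le_rpow (by linarith) hC1.le
  have h7 : Real.exp (C1 * (⌊Real.log z⌋₊ : ℕ)) * (1 + Real.log (PP z)) ≤
      (z : ℝ) ^ C1 * (1 + 2 * z) :=
    mul_le_mul h1 (by linarith) (by linarith) (by positivity)
  calc 2 * ((D * 4 ^ z : ℕ) : ℝ) * Real.exp (Real.exp (C1 * (⌊Real.log z⌋₊ : ℕ)) *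
        (1 + Real.log (PP z)))
      ≤ Real.exp (3 * z) * Real.exp ((z : ℝ) ^ C1 * (1 + 2 * z)) :=
        mul_le_mul h4 (Real.exp_le_exp.mpr h7) (Real.exp_nonneg _) (Real.exp_nonneg _)
    _ = Real.exp (3 * z + (z : ℝ) ^ C1 * (1 + 2 * z)) := (Real.exp_add _ _).symm
    _ ≤ Real.exp ((z : ℝ) ^ (C1 + 3)) := by
        refine Real.exp_le_exp.mpr ?_
        rw [Real.rpow_add hz0]
        have h8 : (z : ℝ) ^ (3 : ℝ) = z ^ 3 := by
          rw [show (3 : ℝ) = ((3 : ℕ) : ℝ) by norm_num, Real.rpow_natCast]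
        rw [h8]
        have h9 : 3 * (z : ℝ) + (z : ℝ) ^ C1 * (1 + 2 * z) ≤ (z : ℝ) ^ C1 * (6 * z) := by
          nlinarith
        refine h9.trans (mul_le_mul_of_nonneg_left ?_ (by linarith))
        nlinarith [mul_nonneg (by linarith : (0:ℝ) ≤ z - 3) hz0.le]

end SZ

open SZ

theorem stageZ (Q : Polynomial ℚ) (hQ : IntVal Q) (hPP : PosProp) (hR : RootsP Q) (hW : WindowP)
    (hC : ChooseP Q) (hP : PairsP Q) : StageZ Q := by
  obtain ⟨D, hD, hper⟩ := RootAux.period Q hQ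
  obtain ⟨C1, hC1, hpp⟩ := hPP
  obtain ⟨d, z1, hd1, hR⟩ := hR
  obtain ⟨z2, hP⟩ := hP
  obtain ⟨CM, hCM, hM⟩ := Pool.Agent.HLT.th_lower
  obtain ⟨e0, he0⟩ : ∃ e0 : ℝ, e0 = 1 / (4 * CM) := ⟨_, rfl⟩
  have he0p : 0 < e0 := by rw [he0]; positivity
  refine ⟨e0 / (3 * e0 + (2 * d : ℕ)), C1 + 3, by positivity, by linarith, max z2 2,
    fun z0 hz0 => ?_⟩
  have hz02 : z2 ≤ z0 := le_trans (le_max_left _ _) hz0
  have hz0' : 2 ≤ z0 := le_trans (le_max_right _ _) hz0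
  suffices H : ∀ β < PP z0, ∀ᶠ z : ℕ in atTop, ∀ᶠ N : ℕ in atTop,
      e0 / (3 * e0 + (2 * d : ℕ)) * ((PP z : ℝ) / PP z0) ≤
      (((range (PP z)).filter (fun b : ℕ => b % PP z0 = β ∧
        (N : ℝ) ≤ Real.exp ((z : ℝ) ^ (C1 + 3)) * (cop Q z N (b : ℤ) : ℝ))).card : ℝ) by
    have h1 := (Filter.eventually_all_finset (range (PP z0))).mpr
      (fun β hβ => H β (mem_range.mp hβ))
    filter_upwards [h1] with z hz
    have h2 := (Filter.eventually_all_finset (range (PP z0))).mpr (fun β hβ => hz β hβ)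
    filter_upwards [h2] with N hN β hβ using hN β (mem_range.mpr hβ)
  intro β hβ
  obtain ⟨c0, hc0, G0, hG0⟩ := hC z0 (β : ℤ)
  have hrt : Tendsto (fun z : ℕ => ⌊Real.log z⌋₊) atTop atTop :=
    tendsto_nat_floor_atTop.comp (Real.tendsto_log_atTop.comp tendsto_natCast_atTop_atTop)
  filter_upwards [hrt.eventually (hP z0 hz02),
    hrt.eventually_ge_atTop (max (max G0 z0) (max z1 2)), eventually_ge_atTop 3,
    eventually_ge_atTop ⌈Real.log (2 * D)⌉₊] with z hz1 hz2 hz3 hz4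
  have hz4' : Real.log (2 * D) ≤ z := (Nat.le_ceil _).trans (by exact_mod_cast hz4)
  have hsize := size_le D hD C1 hC1 z hz3 hz4'
  obtain ⟨r, hr⟩ : ∃ r : ℕ, r = ⌊Real.log z⌋₊ := ⟨_, rfl⟩
  rw [← hr] at hz1 hz2 hsize
  have hrG : G0 ≤ r := le_trans (le_trans (le_max_left _ _) (le_max_left _ _)) hz2
  have hrz0 : z0 ≤ r := le_trans (le_trans (le_max_right _ _) (le_max_left _ _)) hz2
  have hrz1 : z1 ≤ r := le_trans (le_trans (le_max_left _ _) (le_max_right _ _)) hz2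
  have hr2 : 2 ≤ r := le_trans (le_trans (le_max_right _ _) (le_max_right _ _)) hz2
  have hz0r : (0 : ℝ) < z := by exact_mod_cast (by omega : 0 < z)
  have hlz : 0 ≤ Real.log z := Real.log_natCast_nonneg _
  have hrlog : (r : ℝ) ≤ Real.log z := by rw [hr]; exact Nat.floor_le hlz
  have hlogr : Real.log z < r + 1 := by rw [hr]; exact Nat.lt_floor_add_one _
  have hrz : r ≤ z := by
    have h5 : Real.log z ≤ z := (Real.log_le_sub_one_of_pos hz0r).trans (by linarith)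
    exact_mod_cast hrlog.trans h5
  have hzz : z0 ≤ z := hrz0.trans hrz
  obtain ⟨c, hcc, hcm⟩ := exists_c z0 z c0 hzz hc0
  have hN := hpp r (PP z) c (by omega) (PP_pos z) hcc
  have hN' := (tendsto_sub_atTop_nat r).eventually hN
  filter_upwards [hN', eventually_ge_atTop (2 * r)] with N hN1 hN2
  set G := ∏ p ∈ Py z, p ^ (D.factorization p + 1) with hG
  have hGpos : 0 < G := prod_pos fun p hp => pow_pos (mem_Py.mp hp).1.pos _
  have hGle : G ≤ D * 4 ^ z := RootAux.prod_bound D z hD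
  obtain ⟨S, hS⟩ : ∃ S : Finset ℕ, S = (range (N - r)).filter
    (fun j => ∀ i < r, np (j + i) % PP z = c % PP z) := ⟨_, rfl⟩
  rw [← hS] at hN1
  obtain ⟨ν0, hν0, hpig⟩ := pigeon S G hGpos
  set I := (range r).filter (fun i : ℕ => ∀ p ∈ Py z0,
    ¬ (p : ℤ) ∣ c0 + 2 * qi Q (((ν0 : ℤ) + 1) + i) + 2 * (β : ℤ)) with hI
  have hIc : 1 / 2 * (r * tw 0 z0) ≤ (I.card : ℝ) := by
    have h := hG0 r hrG ((ν0 : ℤ) + 1)
    rw [hI]
    convert h
  have hIr : I ⊆ range r := filter_subset _ _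
  have hr0 : (0 : ℝ) < r := by exact_mod_cast (by omega : 0 < r)
  have hIpos : (0 : ℝ) < I.card := lt_of_lt_of_le (by have := tw_pos 0 z0; positivity) hIc
  have hne : I.Nonempty := by
    rw [← card_pos]; exact_mod_cast hIpos
  have he : e0 ≤ I.card * tw z0 z := by
    have h1 : 1 / 2 * (r * tw 0 z0) * tw z0 z ≤ I.card * tw z0 z :=
      mul_le_mul_of_nonneg_right hIc (tw_pos z0 z).le
    have h2 : 1 / 2 * (r * tw 0 z0) * tw z0 z = 1 / 2 * (r * tw 0 z) := by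
      rw [← tw_mul (Nat.zero_le z0) hzz]; ring
    have h3 := hM 0 z (by omega)
    rw [← tw_eq_th] at h3
    have h4 := tw_pos 0 z
    have h5 : 1 ≤ CM * Real.log z * tw 0 z := by
      calc (1 : ℝ) = (tw 0 z)⁻¹ * tw 0 z := by rw [inv_mul_cancel₀ h4.ne']
        _ ≤ CM * Real.log z * tw 0 z := mul_le_mul_of_nonneg_right h3 h4.le
    have h6 : Real.log z ≤ 2 * r := by
      have : (2 : ℝ) ≤ r := by exact_mod_cast hr2
      linarith
    have h7 : CM * Real.log z * tw 0 z ≤ CM * (2 * r) * tw 0 z :=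
      mul_le_mul_of_nonneg_right (mul_le_mul_of_nonneg_left h6 (by linarith)) h4.le
    rw [he0, div_le_iff₀ (by positivity)]
    calc (1 : ℝ) ≤ CM * (2 * r) * tw 0 z := h5.trans h7
      _ = (1 / 2 * (r * tw 0 z)) * (4 * CM) := by ring
      _ ≤ I.card * tw z0 z * (4 * CM) := by
        refine mul_le_mul_of_nonneg_right ?_ (by positivity)
        rw [← h2]; exact h1
  have key := window_b Q hW (2 * d) z0 r z c c0 β ((ν0 : ℤ) + 1) e0 he0p hz0' hrz0 hrz hcm hβ I hne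
    (fun i hi => (mem_filter.mp hi).2) (by
      intro p hp j hj
      have hm := mem_diff.mp hp
      have h1 := hR {p} (by
        intro q hq
        rw [mem_singleton] at hq
        subst hq
        exact ⟨hm.1, by omega⟩) (qi Q ((ν0 : ℤ) + 1 + j)) ((ν0 : ℤ) + 1) r
      rw [card_singleton, pow_one, prod_singleton] at h1
      have hp0 : (0 : ℝ) < p := by exact_mod_cast hm.1.pos
      have h2 : (r : ℝ) / p ≤ 1 := by
        rw [div_le_one hp0]; exact_mod_cast hm.2.1.le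
      have h3 : (d : ℝ) * ((r : ℝ) / p + 1) ≤ ((2 * d : ℕ) : ℝ) := by
        push_cast
        have : (0 : ℝ) ≤ d := Nat.cast_nonneg d
        nlinarith
      have h4 := h1.trans h3
      have h5 : (I.filter (fun i : ℕ => (p : ℤ) ∣ qi Q ((ν0 : ℤ) + 1 + i) -
          qi Q ((ν0 : ℤ) + 1 + j))).card ≤ ((range r).filter (fun i : ℕ => ∀ p' ∈ ({p} : Finset ℕ),
          (p' : ℤ) ∣ qi Q ((ν0 : ℤ) + 1 + i) - qi Q ((ν0 : ℤ) + 1 + j))).card := by
        refine card_le_card fun i hi => ?_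
        rw [mem_filter] at hi ⊢
        refine ⟨hIr hi.1, fun p' hp' => ?_⟩
        rw [mem_singleton] at hp'
        subst hp'
        exact hi.2
      exact_mod_cast (Nat.cast_le.mpr h5).trans h4) (hz1 _ I hIr hIc) he
  refine key.trans ?_
  refine Nat.cast_le.mpr (card_le_card fun b hb => ?_)
  rw [mem_filter] at hb ⊢
  obtain ⟨hb1, hb2, i, hi, hb3⟩ := hb
  refine ⟨hb1, hb2, ?_⟩
  have hir : i < r := mem_range.mp (hIr hi)
  have h1 := cop_ge Q D hper z N r ν0 c i (b : ℤ) (S.filter (fun j => j % G = ν0)) (by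
    intro j hj
    rw [mem_filter, hS, mem_filter, mem_range] at hj
    exact ⟨by omega, hj.2, hj.1.2⟩) hir hb3
  have h2 : (((S.filter (fun j => j % G = ν0)).card : ℕ) : ℝ) ≤ (cop Q z N (b : ℤ) : ℝ) := by
    exact_mod_cast h1
  have h3 : (N : ℝ) ≤ 2 * ((N - r : ℕ) : ℝ) := by
    have : N ≤ 2 * (N - r) := by omega
    exact_mod_cast this
  set E := Real.exp (Real.exp (C1 * r) * (1 + Real.log (PP z))) with hE
  have hE0 : 0 < E := Real.exp_pos _
  have hGR : ((G : ℕ) : ℝ) ≤ ((D * 4 ^ z : ℕ) : ℝ) := by exact_mod_cast hGle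
  calc (N : ℝ) ≤ 2 * ((N - r : ℕ) : ℝ) := h3
    _ ≤ 2 * (E * (S.card : ℝ)) := by
      refine mul_le_mul_of_nonneg_left ?_ (by norm_num)
      exact hN1
    _ ≤ 2 * (E * (G * ((S.filter (fun j => j % G = ν0)).card : ℝ))) := by
      refine mul_le_mul_of_nonneg_left (mul_le_mul_of_nonneg_left hpig hE0.le) (by norm_num)
    _ ≤ 2 * (E * (((D * 4 ^ z : ℕ) : ℝ) * (cop Q z N (b : ℤ) : ℝ))) := by
      refine mul_le_mul_of_nonneg_left (mul_le_mul_of_nonneg_left ?_ hE0.le) (by norm_num)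
      exact mul_le_mul hGR h2 (Nat.cast_nonneg _) (Nat.cast_nonneg _)
    _ = (2 * ((D * 4 ^ z : ℕ) : ℝ) * E) * (cop Q z N (b : ℤ) : ℝ) := by ring
    _ ≤ Real.exp ((z : ℝ) ^ (C1 + 3)) * (cop Q z N (b : ℤ) : ℝ) :=
      mul_le_mul_of_nonneg_right hsize (Nat.cast_nonneg _)

end Pool.Agent.PnT
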