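import Pool.Agent.PnT.Defs
import Pool.Agent.PnLG.WMom

/-!
# Second moment over a residue class of `b`

For numbers `v_i + 2b`, `i ∈ I`: for many `b` in a residue class modulo the primes `≤ z0` one of
these numbers is coprime to all primes in `(z0, z]`.
-/

open Finset Filter

namespace Pool.Agent.PnT

open Pool.Agent.PnLG

namespace WindowAux

/-- indicator of `p ∤ m` -/
noncomputable def nd (p : ℕ) (m : ℤ) : ℝ := if (p : ℤ) ∣ m then 0 else 1

lemma nd_nonneg (p : ℕ) (m : ℤ) : 0 ≤ nd p m := by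
  unfold nd; split_ifs <;> norm_num

lemma nd_le_one (p : ℕ) (m : ℤ) : nd p m ≤ 1 := by
  unfold nd; split_ifs <;> norm_num

/-- the common factor for a pair -/
noncomputable def pf (p : ℕ) (h : ℤ) : ℝ := if (p : ℤ) ∣ h then (1 - 1 / (p : ℝ))⁻¹ else 1

lemma local1 (p : ℕ) (hp : p.Prime) (hp2 : p ≠ 2) (a c s : ℤ) (hc : ¬ (p : ℤ) ∣ c) :
    ∑ k ∈ range p, nd p (s + 2 * (a + c * (k : ℤ))) = p * (1 - 1 / (p : ℝ)) := by
  obtain ⟨k₀, hk₀, h⟩ := local_exists p hp hp2 a c s hc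
  have hp1 : (1 : ℝ) < p := by exact_mod_cast hp.one_lt
  have h1 : ∑ k ∈ range p, nd p (s + 2 * (a + c * (k : ℤ))) = ∑ k ∈ (range p).erase k₀, (1 : ℝ) := by
    unfold nd
    rw [← Finset.add_sum_erase _ _ hk₀, if_pos ((h k₀ hk₀).mpr rfl), zero_add]
    refine Finset.sum_congr rfl (fun k hk => ?_)
    rw [mem_erase] at hk
    rw [if_neg (fun hd => hk.1 ((h k hk.2).mp hd))]
  rw [h1, sum_const, card_erase_of_mem hk₀, card_range, nsmul_eq_mul,
    Nat.cast_sub hp.one_lt.le, Nat.cast_one]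
  have h2 : (p : ℝ) ≠ 0 := by linarith
  field_simp

lemma local2 (p : ℕ) (hp : p.Prime) (hp2 : p ≠ 2) (a c s s' : ℤ) (hc : ¬ (p : ℤ) ∣ c) :
    ∑ k ∈ range p, nd p (s + 2 * (a + c * (k : ℤ))) * nd p (s' + 2 * (a + c * (k : ℤ))) ≤
      p * (1 - 1 / (p : ℝ)) ^ 2 * pf p (s - s') := by
  obtain ⟨k₀, hk₀, h⟩ := local_exists p hp hp2 a c s hc
  obtain ⟨k₁, hk₁, h'⟩ := local_exists p hp hp2 a c s' hc
  have hp1 : (2 : ℝ) ≤ p := by exact_mod_cast hp.two_le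
  have hp0 : (p : ℝ) ≠ 0 := by linarith
  have hpp : (p : ℝ) - 1 ≠ 0 := by linarith
  have h1 : ∑ k ∈ range p, nd p (s + 2 * (a + c * (k : ℤ))) * nd p (s' + 2 * (a + c * (k : ℤ)))
      = (((range p).filter (fun k => k ≠ k₀ ∧ k ≠ k₁)).card : ℝ) := by
    rw [Finset.card_filter, Nat.cast_sum]
    refine Finset.sum_congr rfl (fun k hk => ?_)
    unfold nd
    rw [if_congr (h k hk) rfl rfl, if_congr (h' k hk) rfl rfl]
    by_cases h2 : k = k₀
    · rw [if_pos h2, zero_mul, if_neg (fun hh => hh.1 h2)]; simp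
    · by_cases h3 : k = k₁
      · rw [if_pos h3, mul_zero, if_neg (fun hh => hh.2 h3)]; simp
      · rw [if_neg h2, if_neg h3, if_pos ⟨h2, h3⟩]; simp
  rw [h1]
  have hcard : (range p).filter (fun k => k ≠ k₀ ∧ k ≠ k₁) = ((range p).erase k₀).erase k₁ := by
    ext k
    simp only [mem_filter, mem_erase, mem_range]
    tauto
  rw [hcard]
  unfold pf
  by_cases hd : (p : ℤ) ∣ s - s'
  · rw [if_pos hd]
    have hkk : k₁ = k₀ := by
      rw [← h k₁ hk₁]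
      have h3 := (h' k₁ hk₁).mpr rfl
      have h4 := dvd_add hd h3
      have h5 : s - s' + (s' + 2 * (a + c * (k₁ : ℤ))) = s + 2 * (a + c * (k₁ : ℤ)) := by ring
      rwa [h5] at h4
    rw [hkk, erase_idem, card_erase_of_mem hk₀, card_range, Nat.cast_sub hp.one_lt.le,
      Nat.cast_one]
    refine le_of_eq ?_
    field_simp
  · rw [if_neg hd, mul_one]
    have hkk : k₁ ≠ k₀ := by
      intro hkk
      apply hd
      have h3 := (h' k₁ hk₁).mpr rfl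
      have h4 := (h k₁ hk₁).mpr hkk
      have h5 := dvd_sub h4 h3
      have h6 : s + 2 * (a + c * (k₁ : ℤ)) - (s' + 2 * (a + c * (k₁ : ℤ))) = s - s' := by ring
      rwa [h6] at h5
    have hp2' : 2 ≤ p := hp.two_le
    rw [card_erase_of_mem (mem_erase.mpr ⟨hkk, hk₁⟩), card_erase_of_mem hk₀, card_range,
      Nat.sub_sub, Nat.cast_sub hp2']
    push_cast
    have h7 : (p : ℝ) * (1 - 1 / (p : ℝ)) ^ 2 = ((p : ℝ) - 1) ^ 2 / p := by
      field_simp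
    rw [h7, le_div_iff₀ (by linarith)]
    nlinarith

lemma per (p : ℕ) (s β M : ℤ) (k : ℕ) :
    nd p (s + 2 * (β + M * ((k + p : ℕ) : ℤ))) = nd p (s + 2 * (β + M * (k : ℤ))) := by
  unfold nd
  simp only [WMom_per]

lemma mean1 {z0 z : ℕ} (hz0 : 2 ≤ z0) (β s : ℤ) :
    ∑ k ∈ range (∏ p ∈ Py z \ Py z0, p), ∏ p ∈ Py z \ Py z0,
      nd p (s + 2 * (β + (PP z0 : ℤ) * (k : ℤ))) = ((∏ p ∈ Py z \ Py z0, p : ℕ) : ℝ) * tw z0 z := by
  rw [sum_prod_crt (Py z \ Py z0) (fun p hp => (WMom_mem hp).1)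
    (fun p k => nd p (s + 2 * (β + (PP z0 : ℤ) * (k : ℤ)))) (fun p _ k => per p s β _ k)]
  unfold tw
  rw [Nat.cast_prod, ← Finset.prod_mul_distrib]
  refine Finset.prod_congr rfl fun p hp => ?_
  have h := WMom_mem hp
  exact local1 p h.1 (by omega) β _ s (WMom_ndvd hp)

lemma mean2 {z0 z : ℕ} (hz0 : 2 ≤ z0) (β s s' : ℤ) :
    ∑ k ∈ range (∏ p ∈ Py z \ Py z0, p), (∏ p ∈ Py z \ Py z0,
      nd p (s + 2 * (β + (PP z0 : ℤ) * (k : ℤ)))) * (∏ p ∈ Py z \ Py z0,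
      nd p (s' + 2 * (β + (PP z0 : ℤ) * (k : ℤ)))) ≤
      ((∏ p ∈ Py z \ Py z0, p : ℕ) : ℝ) * tw z0 z ^ 2 * ∏ p ∈ Py z \ Py z0, pf p (s - s') := by
  simp_rw [← Finset.prod_mul_distrib]
  rw [sum_prod_crt (Py z \ Py z0) (fun p hp => (WMom_mem hp).1)
    (fun p k => nd p (s + 2 * (β + (PP z0 : ℤ) * (k : ℤ))) *
      nd p (s' + 2 * (β + (PP z0 : ℤ) * (k : ℤ)))) (fun p _ k => by
        simp only [per])]
  unfold tw
  rw [Nat.cast_prod, ← Finset.prod_pow, ← Finset.prod_mul_distrib, ← Finset.prod_mul_distrib]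
  refine Finset.prod_le_prod (fun p hp => Finset.sum_nonneg fun k _ =>
    mul_nonneg (nd_nonneg _ _) (nd_nonneg _ _)) fun p hp => ?_
  have h := WMom_mem hp
  exact local2 p h.1 (by omega) β _ s s' (WMom_ndvd hp)

lemma inv_ge_one {p : ℕ} (hp : p.Prime) : 1 ≤ (1 - 1 / (p : ℝ))⁻¹ := by
  have h1 : (1 : ℝ) < p := by exact_mod_cast hp.one_lt
  have h2 : (0 : ℝ) < 1 / p := by positivity
  have h3 : 1 / (p : ℝ) < 1 := by rw [div_lt_one (by linarith)]; exact h1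
  rw [le_inv_comm₀ one_pos (by linarith), inv_one]
  linarith

lemma one_sub_pos {p : ℕ} (hp : p.Prime) : 0 < 1 - 1 / (p : ℝ) := by
  have h1 : (1 : ℝ) < p := by exact_mod_cast hp.one_lt
  have h3 : 1 / (p : ℝ) < 1 := by rw [div_lt_one (by linarith)]; exact h1
  linarith

lemma pf_eq (S : Finset ℕ) (h : ℤ) :
    ∏ p ∈ S, pf p h = ∏ p ∈ S.filter (fun p : ℕ => (p : ℤ) ∣ h), (1 - 1 / (p : ℝ))⁻¹ := by
  unfold pf
  rw [Finset.prod_filter]

/-- product over a subset minus one, by telescoping -/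
lemma prod_sub_one_le (L : Finset ℕ) (hL : ∀ p ∈ L, p.Prime) (h : ℤ) :
    ∏ p ∈ L, pf p h - 1 ≤ ∑ p ∈ L, if (p : ℤ) ∣ h then
      ((1 - 1 / (p : ℝ))⁻¹ - 1) * ∏ q ∈ L with q < p, (1 - 1 / (q : ℝ))⁻¹ else 0 := by
  have h1 : ∏ p ∈ L, pf p h = ∏ p ∈ L, (1 + (pf p h - 1)) :=
    Finset.prod_congr rfl fun p _ => by ring
  rw [h1, Finset.prod_one_add_ordered, add_sub_cancel_left]
  refine Finset.sum_le_sum fun p hp => ?_
  by_cases hd : (p : ℤ) ∣ h
  · rw [if_pos hd]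
    have h2 : pf p h = (1 - 1 / (p : ℝ))⁻¹ := if_pos hd
    rw [h2]
    have h3 := inv_ge_one (hL p hp)
    refine mul_le_mul_of_nonneg_left ?_ (by linarith)
    refine Finset.prod_le_prod (fun q hq => ?_) fun q hq => ?_
    · have := inv_ge_one (hL q (mem_filter.mp hq).1)
      have h5 : 1 + (pf q h - 1) = pf q h := by ring
      rw [h5]; unfold pf; split_ifs <;> linarith
    · have := inv_ge_one (hL q (mem_filter.mp hq).1)
      have h5 : 1 + (pf q h - 1) = pf q h := by ring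
      rw [h5]; unfold pf; split_ifs <;> linarith
  · rw [if_neg hd]
    have h2 : pf p h = 1 := if_neg hd
    rw [h2]; simp

lemma telescoping (L : Finset ℕ) :
    ∑ p ∈ L, ((1 - 1 / (p : ℝ))⁻¹ - 1) * ∏ q ∈ L with q < p, (1 - 1 / (q : ℝ))⁻¹ =
      ∏ p ∈ L, (1 - 1 / (p : ℝ))⁻¹ - 1 := by
  have h1 : ∏ p ∈ L, (1 - 1 / (p : ℝ))⁻¹ = ∏ p ∈ L, (1 + ((1 - 1 / (p : ℝ))⁻¹ - 1)) :=
    Finset.prod_congr rfl fun p _ => by ring
  rw [h1, Finset.prod_one_add_ordered, add_sub_cancel_left]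
  refine Finset.sum_congr rfl fun p _ => ?_
  congr 1
  exact Finset.prod_congr rfl fun q _ => by ring

open Classical in
/-- the large primes -/
lemma large (L I : Finset ℕ) (hL : ∀ p ∈ L, p.Prime) (v : ℕ → ℤ) (d j : ℕ)
    (hd : ∀ p ∈ L, (I.filter (fun i => (p : ℤ) ∣ v i - v j)).card ≤ d) :
    ∑ i ∈ I, (∏ p ∈ L, pf p (v i - v j) - 1) ≤ d * (∏ p ∈ L, (1 - 1 / (p : ℝ))⁻¹) := by
  set u : ℕ → ℝ := fun p => ((1 - 1 / (p : ℝ))⁻¹ - 1) * ∏ q ∈ L with q < p, (1 - 1 / (q : ℝ))⁻¹ with hu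
  have hu0 : ∀ p ∈ L, 0 ≤ u p := by
    intro p hp
    have h3 := inv_ge_one (hL p hp)
    refine mul_nonneg (by linarith) (Finset.prod_nonneg fun q hq => ?_)
    have := inv_ge_one (hL q (mem_filter.mp hq).1)
    linarith
  calc ∑ i ∈ I, (∏ p ∈ L, pf p (v i - v j) - 1)
      ≤ ∑ i ∈ I, ∑ p ∈ L, (if (p : ℤ) ∣ v i - v j then u p else 0) :=
        Finset.sum_le_sum fun i _ => prod_sub_one_le L hL _
    _ = ∑ p ∈ L, ((I.filter (fun i => (p : ℤ) ∣ v i - v j)).card : ℝ) * u p := by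
        rw [Finset.sum_comm]
        refine Finset.sum_congr rfl fun p _ => ?_
        rw [← Finset.sum_filter, Finset.sum_const, nsmul_eq_mul]
    _ ≤ ∑ p ∈ L, (d : ℝ) * u p := by
        refine Finset.sum_le_sum fun p hp => mul_le_mul_of_nonneg_right ?_ (hu0 p hp)
        exact_mod_cast hd p hp
    _ = d * (∏ p ∈ L, (1 - 1 / (p : ℝ))⁻¹ - 1) := by
        rw [← Finset.mul_sum, telescoping]
    _ ≤ d * (∏ p ∈ L, (1 - 1 / (p : ℝ))⁻¹) := by
        refine mul_le_mul_of_nonneg_left (by linarith) (Nat.cast_nonneg _)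

open Classical in
/-- the pair sum -/
lemma pairs_sum {d z0 r z : ℕ} {I : Finset ℕ} {v : ℕ → ℤ} (h0 : z0 ≤ r) (h1 : r ≤ z)
    (hL : ∀ p ∈ Py z \ Py r, ∀ j ∈ I, (I.filter (fun i => (p : ℤ) ∣ v i - v j)).card ≤ d)
    (hS : ∑ i ∈ I, ∑ j ∈ I, ∏ p ∈ (Py r \ Py z0).filter (fun p : ℕ => (p : ℤ) ∣ v i - v j),
      (1 - 1 / (p : ℝ))⁻¹ ≤ 3 * (I.card : ℝ) ^ 2) :
    tw z0 z * ∑ i ∈ I, ∑ j ∈ I, ∏ p ∈ Py z \ Py z0, pf p (v i - v j) ≤
      3 * (I.card : ℝ) ^ 2 * tw z0 z + d * I.card := by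
  have hmono : ∀ {a b : ℕ}, a ≤ b → Py a ⊆ Py b := by
    intro a b hab p hp
    obtain ⟨h2, h3⟩ := mem_filter.mp hp
    rw [mem_Icc] at h2
    exact mem_filter.mpr ⟨mem_Icc.mpr ⟨h2.1, h2.2.trans hab⟩, h3⟩
  have hsplit : ∀ f : ℕ → ℝ, ∏ p ∈ Py z \ Py z0, f p = (∏ p ∈ Py z \ Py r, f p) *
      ∏ p ∈ Py r \ Py z0, f p := by
    intro f
    have h2 : Py z \ Py z0 = (Py z \ Py r) ∪ (Py r \ Py z0) := by
      ext p
      simp only [Finset.mem_union, Finset.mem_sdiff]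
      constructor
      · rintro ⟨h3, h4⟩
        by_cases h5 : p ∈ Py r
        · exact Or.inr ⟨h5, h4⟩
        · exact Or.inl ⟨h3, h5⟩
      · rintro (⟨h3, h4⟩ | ⟨h3, h4⟩)
        · exact ⟨h3, fun h5 => h4 (hmono h0 h5)⟩
        · exact ⟨hmono h1 h3, h4⟩
    rw [h2, Finset.prod_union]
    rw [Finset.disjoint_left]
    intro p hp hp'
    exact (Finset.mem_sdiff.mp hp).2 (Finset.mem_sdiff.mp hp').1
  have hpL : ∀ p ∈ Py z \ Py r, p.Prime := fun p hp => (WMom_mem hp).1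
  have hpS : ∀ p ∈ Py r \ Py z0, p.Prime := fun p hp => (WMom_mem hp).1
  set U : ℝ := ∏ p ∈ Py r \ Py z0, (1 - 1 / (p : ℝ))⁻¹ with hU
  set V : ℝ := ∏ p ∈ Py z \ Py r, (1 - 1 / (p : ℝ))⁻¹ with hV
  have hUV : tw z0 z * (U * V) = 1 := by
    rw [mul_comm U V, hU, hV, ← hsplit, tw, ← Finset.prod_mul_distrib]
    refine Finset.prod_eq_one fun p hp => ?_
    exact mul_inv_cancel₀ (one_sub_pos (WMom_mem hp).1).ne'
  have htw : 0 ≤ tw z0 z := Finset.prod_nonneg fun p hp => (one_sub_pos (WMom_mem hp).1).le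
  have hpf1 : ∀ p : ℕ, p.Prime → ∀ h : ℤ, 1 ≤ pf p h := by
    intro p hp h
    unfold pf
    have := inv_ge_one hp
    split_ifs <;> linarith
  have hU0 : 0 ≤ U := Finset.prod_nonneg fun p hp => by
    have := inv_ge_one (hpS p hp)
    linarith
  have hfs : ∀ h : ℤ, ∏ p ∈ Py r \ Py z0, pf p h ≤ U := by
    intro h
    refine Finset.prod_le_prod (fun p hp => by have := hpf1 p (hpS p hp) h; linarith) fun p hp => ?_
    unfold pf
    have := inv_ge_one (hpS p hp)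
    split_ifs <;> linarith
  have hfL : ∀ h : ℤ, 1 ≤ ∏ p ∈ Py z \ Py r, pf p h := by
    intro h
    calc (1 : ℝ) = ∏ p ∈ Py z \ Py r, (1 : ℝ) := by simp
      _ ≤ _ := Finset.prod_le_prod (fun _ _ => zero_le_one) fun p hp => hpf1 p (hpL p hp) h
  have key : ∑ i ∈ I, ∑ j ∈ I, ∏ p ∈ Py z \ Py z0, pf p (v i - v j) ≤
      3 * (I.card : ℝ) ^ 2 + I.card * (U * (d * V)) := by
    rw [Finset.sum_comm]
    have h2 : ∀ j ∈ I, ∑ i ∈ I, ∏ p ∈ Py z \ Py z0, pf p (v i - v j) ≤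
        ∑ i ∈ I, ∏ p ∈ Py r \ Py z0, pf p (v i - v j) + U * (d * V) := by
      intro j hj
      have h3 : ∀ i ∈ I, ∏ p ∈ Py z \ Py z0, pf p (v i - v j) ≤
          ∏ p ∈ Py r \ Py z0, pf p (v i - v j) + U * (∏ p ∈ Py z \ Py r, pf p (v i - v j) - 1) := by
        intro i _
        rw [hsplit]
        have h4 := hfs (v i - v j)
        have h5 := hfL (v i - v j)
        nlinarith
      refine (Finset.sum_le_sum h3).trans ?_
      rw [Finset.sum_add_distrib, ← Finset.mul_sum]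
      have h6 := large (Py z \ Py r) I hpL v d j (fun p hp => hL p hp j hj)
      have h7 := mul_le_mul_of_nonneg_left h6 hU0
      linarith
    refine (Finset.sum_le_sum h2).trans ?_
    rw [Finset.sum_add_distrib, Finset.sum_const, nsmul_eq_mul]
    have h8 : ∑ j ∈ I, ∑ i ∈ I, ∏ p ∈ Py r \ Py z0, pf p (v i - v j) ≤ 3 * (I.card : ℝ) ^ 2 := by
      rw [Finset.sum_comm]
      refine le_trans (le_of_eq ?_) hS
      refine Finset.sum_congr rfl fun i _ => Finset.sum_congr rfl fun j _ => ?_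
      rw [pf_eq]
    linarith
  calc tw z0 z * ∑ i ∈ I, ∑ j ∈ I, ∏ p ∈ Py z \ Py z0, pf p (v i - v j)
      ≤ tw z0 z * (3 * (I.card : ℝ) ^ 2 + I.card * (U * (d * V))) :=
        mul_le_mul_of_nonneg_left key htw
    _ = 3 * (I.card : ℝ) ^ 2 * tw z0 z + d * I.card * (tw z0 z * (U * V)) := by ring
    _ = 3 * (I.card : ℝ) ^ 2 * tw z0 z + d * I.card := by rw [hUV]; ring

end WindowAux

open WindowAux

/-- second moment over `b` in a residue class -/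
theorem window : WindowP := by
  classical
  intro d z0 r z I v β hz0 h0 h1 hI hL hS
  set S := Py z \ Py z0 with hSdef
  set P : ℕ := ∏ p ∈ S, p with hP
  set θ : ℝ := tw z0 z with hθ
  have hPpos : 0 < P := Finset.prod_pos fun p hp => (WMom_mem hp).1.pos
  have hPR : (0 : ℝ) < P := by exact_mod_cast hPpos
  have hθ0 : 0 < θ := Finset.prod_pos fun p hp => one_sub_pos (WMom_mem hp).1
  have hIc : (0 : ℝ) < I.card := by exact_mod_cast hI.card_pos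
  set T : ℕ → ℝ := fun k => ∑ i ∈ I, ∏ p ∈ S, nd p (v i + 2 * (β + (PP z0 : ℤ) * (k : ℤ))) with hT
  have hT0 : ∀ k, 0 ≤ T k := fun k => Finset.sum_nonneg fun i _ => Finset.prod_nonneg fun p _ => nd_nonneg _ _
  have hm : ∑ k ∈ range P, T k = P * θ * I.card := by
    rw [hT, Finset.sum_comm, Finset.sum_congr rfl (fun i _ => mean1 hz0 β (v i)), Finset.sum_const,
      nsmul_eq_mul]
    ring
  have hsq : ∑ k ∈ range P, T k ^ 2 ≤ P * θ * (3 * (I.card : ℝ) ^ 2 * θ + d * I.card) := by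
    have h2 : ∑ k ∈ range P, T k ^ 2 = ∑ i ∈ I, ∑ j ∈ I, ∑ k ∈ range P,
        (∏ p ∈ S, nd p (v i + 2 * (β + (PP z0 : ℤ) * (k : ℤ)))) *
        (∏ p ∈ S, nd p (v j + 2 * (β + (PP z0 : ℤ) * (k : ℤ)))) := by
      rw [Finset.sum_congr rfl (fun k _ => by rw [hT, sq, Finset.sum_mul_sum])]
      rw [Finset.sum_comm]
      refine Finset.sum_congr rfl fun i _ => ?_
      rw [Finset.sum_comm]
    rw [h2]
    calc ∑ i ∈ I, ∑ j ∈ I, ∑ k ∈ range P,
        (∏ p ∈ S, nd p (v i + 2 * (β + (PP z0 : ℤ) * (k : ℤ)))) *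
        (∏ p ∈ S, nd p (v j + 2 * (β + (PP z0 : ℤ) * (k : ℤ))))
        ≤ ∑ i ∈ I, ∑ j ∈ I, P * θ ^ 2 * ∏ p ∈ S, pf p (v i - v j) :=
          Finset.sum_le_sum fun i _ => Finset.sum_le_sum fun j _ => mean2 hz0 β (v i) (v j)
      _ = P * θ * (θ * ∑ i ∈ I, ∑ j ∈ I, ∏ p ∈ S, pf p (v i - v j)) := by
          rw [Finset.mul_sum, Finset.mul_sum]
          refine Finset.sum_congr rfl fun i _ => ?_
          rw [Finset.mul_sum, Finset.mul_sum]
          refine Finset.sum_congr rfl fun j _ => ?_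
          ring
      _ ≤ P * θ * (3 * (I.card : ℝ) ^ 2 * θ + d * I.card) :=
          mul_le_mul_of_nonneg_left (pairs_sum h0 h1 hL hS) (by positivity)
  set G := (range P).filter (fun k : ℕ => ∃ i ∈ I, ∀ p ∈ S,
      ¬ (p : ℤ) ∣ v i + 2 * (β + (PP z0 : ℤ) * (k : ℤ))) with hG
  have hTG : ∀ k ∈ range P, k ∉ G → T k = 0 := by
    intro k hk hkG
    refine Finset.sum_eq_zero fun i hi => ?_
    by_contra hne
    apply hkG
    refine mem_filter.mpr ⟨hk, i, hi, fun p hp hdvd => hne ?_⟩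
    exact Finset.prod_eq_zero hp (if_pos hdvd)
  have hsumG : ∑ k ∈ G, T k = P * θ * I.card := by
    rw [← hm]
    exact Finset.sum_subset (filter_subset _ _) fun k hk hkG => hTG k hk hkG
  have hsqG : ∑ k ∈ G, T k ^ 2 ≤ P * θ * (3 * (I.card : ℝ) ^ 2 * θ + d * I.card) :=
    (Finset.sum_le_sum_of_subset_of_nonneg (filter_subset _ _) fun k _ _ => sq_nonneg _).trans hsq
  have hcs : (∑ k ∈ G, T k) ^ 2 ≤ (G.card : ℝ) * ∑ k ∈ G, T k ^ 2 := sq_sum_le_card_mul_sum_sq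
  have h5 : ((P : ℝ) * θ * I.card) ^ 2 ≤ (G.card : ℝ) * (P * θ * (3 * (I.card : ℝ) ^ 2 * θ + d * I.card)) := by
    rw [← hsumG]
    exact hcs.trans (mul_le_mul_of_nonneg_left hsqG (Nat.cast_nonneg _))
  have hden : 0 < 3 * ((I.card : ℝ) * θ) + d := by positivity
  rw [div_mul_eq_mul_div, div_le_iff₀ hden]
  have hpos : 0 < (P : ℝ) * θ * I.card := by positivity
  have h6 : (P * θ * I.card) * ((I.card : ℝ) * θ * P) ≤ (P * θ * I.card) * ((G.card : ℝ) * (3 * ((I.card : ℝ) * θ) + d)) := by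
    calc (P * θ * I.card) * ((I.card : ℝ) * θ * P) = ((P : ℝ) * θ * I.card) ^ 2 := by ring
      _ ≤ (G.card : ℝ) * (P * θ * (3 * (I.card : ℝ) ^ 2 * θ + d * I.card)) := h5
      _ = (P * θ * I.card) * ((G.card : ℝ) * (3 * ((I.card : ℝ) * θ) + d)) := by ring
  exact le_of_mul_le_mul_left h6 hpos

end Pool.Agent.PnT
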