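import Pool.Agent.PnT.AllMod
import Pool.Agent.PnT.StageZ
import Pool.Agent.PnT.Window
import Pool.Agent.PnT.Choose
import Pool.Agent.PnT.Lift
import Pool.Agent.PnT.Stage
import Pool.Agent.PnT.Levels
import Pool.Agent.PnT.DenseMod
import Pool.Agent.PnT.Bridge

/-!
# All constant terms: assembly
-/

open Finset Filter

namespace Pool.Agent.PnT

open Pool.Agent.PnLG
open Pool.Agent.PnPoly.NC (np)

/-- the local statement for constant `Q` -/
theorem all_mod_const (Q : Polynomial ℚ) (hQ : IntVal Q) (hd : Q.natDegree = 0) : AllMod Q := by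
  classical
  have hadm : ∀ (y : ℕ) (b : ℤ), Adm Q y b := by
    intro y b
    right
    intro p hp hp2
    have hpp : p.Prime := (SZ.mem_Py.mp hp).1
    have hp3 : 3 ≤ p := by
      have := hpp.two_le
      omega
    obtain ⟨q, hq⟩ : ∃ q : ℤ, ∀ n : ℤ, ⌊Q.eval (n : ℚ)⌋ = q := by
      refine ⟨⌊Q.coeff 0⌋, fun n => ?_⟩
      rw [Polynomial.eq_C_of_natDegree_eq_zero hd]
      simp
    by_cases h1 : (p : ℤ) ∣ 1 + 2 * (q + b)
    · refine ⟨2, ?_, fun n hn => ?_⟩
      · intro h
        have : (p : ℤ) ≤ 2 := Int.le_of_dvd (by norm_num) h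
        omega
      · rw [hq n] at hn
        have h2 : (p : ℤ) ∣ 1 := by
          have h3 := dvd_sub hn h1
          have h4 : (2 + 2 * (q + b)) - (1 + 2 * (q + b)) = 1 := by ring
          rwa [h4] at h3
        have : (p : ℤ) ≤ 1 := Int.le_of_dvd (by norm_num) h2
        omega
    · refine ⟨1, ?_, fun n hn => ?_⟩
      · intro h
        have : (p : ℤ) ≤ 1 := Int.le_of_dvd (by norm_num) h
        omega
      · rw [hq n] at hn
        exact h1 hn
  intro ε hε
  obtain ⟨y, c, hc, h⟩ := adm_mod Q hQ ε hε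
  refine ⟨y, c, hc, fun y1 hy1 => ?_⟩
  filter_upwards [h y1 hy1] with N hN
  refine le_trans (le_of_eq ?_) hN
  congr 2
  refine filter_congr fun b _ => ?_
  exact ⟨fun h => ⟨hadm y b, h⟩, fun h => h.2⟩

theorem all_mod_pos (Q : Polynomial ℚ) (hQ : IntVal Q) (hPP : PosProp) (hR : RootsP Q)
    (hP : PairsP Q) : AllMod Q :=
  allMod_of Q (levels Q (stage Q (stageZ Q hQ hPP hR window (choose_c Q hQ) hP) (lift Q)))
    (denseMod Q hQ)

end Pool.Agent.PnT
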